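import Pool.Agent.HoroSix.Ordinary

/-!
# The number of points on horocycles with an even number of points
-/

set_option autoImplicit false

open Finset UpperHalfPlane

namespace Pool.Agent.HoroSix

open Pool.Agent.Hhelper97.Horo Pool.Agent.HoroSmall

open Classical in
/-- the number of points of `nn Q` on `H` -/
noncomputable def aa (Q : Finset ℍ) (H : Set ℍ) : ℕ := #{i ∈ nn Q | i ∈ H}

open Classical in
/-- the number of other points on `H` -/
noncomputable def bb (Q : Finset ℍ) (H : Set ℍ) : ℕ := #{i ∈ Q \ nn Q | i ∈ H}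

theorem nn_sub (Q : Finset ℍ) : nn Q ⊆ Q := by
  classical
  exact filter_subset _ _

theorem aa_add_bb (Q : Finset ℍ) (H : Set ℍ) : aa Q H + bb Q H = cnt Q H := by
  classical
  unfold aa bb cnt
  rw [← card_union_of_disjoint, ← filter_union, union_sdiff_of_subset (nn_sub Q)]
  exact disjoint_filter_filter disjoint_sdiff

theorem odd_of_aa {Q : Finset ℍ} {H : Set ℍ} (hH : H ∈ det Q) (h : 1 ≤ aa Q H) :
    Odd (cnt Q H) := by
  classical
  obtain ⟨i, hi⟩ := card_pos.1 (show 0 < #{i ∈ nn Q | i ∈ H} from h)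
  rw [mem_filter] at hi
  exact (mem_filter.1 hi.1).2 H hH hi.2

theorem abs_sum_sign {α : Type*} (T : Finset α) (e : α → ℤ) (he : ∀ i, e i * e i = 1) :
    |∑ i ∈ T, e i| ≤ #T := by
  refine (abs_sum_le_sum_abs _ _).trans ?_
  have h1 : ∀ i ∈ T, |e i| = 1 := by
    intro i _
    rcases mul_self_eq_one_iff.1 (he i) with h | h <;> rw [h] <;> norm_num
  rw [sum_congr rfl h1, sum_const]
  simp

open Classical in
theorem S_le {Q : Finset ℍ} (hQ : Set.InjOn UpperHalfPlane.im Q) {H : Set ℍ}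
    (hH : H ∈ det Q) :
    (∑ i ∈ nn Q with i ∈ H, ee Q i) ^ 2 - aa Q H ≤
      aa Q H * bb Q H - (if bb Q H = 0 then (aa Q H : ℤ) - 1 else 0) := by
  have hab := aa_add_bb Q H
  have h2 := two_le_cnt hH
  have hX : ∀ i ∈ ({i ∈ nn Q | i ∈ H} : Finset ℍ), ee Q i = xx Q H i := by
    intro i hi
    rw [mem_filter] at hi
    exact (xx_odd hQ hH hi.2 (mem_filter.1 hi.1).2).symm
  have hS := sum_xx hQ hH
  have hsplit : ∑ i ∈ Q with i ∈ H, xx Q H i =
      ∑ i ∈ nn Q with i ∈ H, ee Q i + ∑ i ∈ Q \ nn Q with i ∈ H, xx Q H i := by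
    rw [sum_congr rfl hX, ← sum_union, ← filter_union, union_sdiff_of_subset (nn_sub Q)]
    exact disjoint_filter_filter disjoint_sdiff
  by_cases hb : bb Q H = 0
  · rw [if_pos hb]
    have h3 : ({i ∈ Q \ nn Q | i ∈ H} : Finset ℍ) = ∅ := by
      rw [← card_eq_zero]
      exact hb
    rw [h3, sum_empty, add_zero] at hsplit
    rw [← hsplit, hS, if_neg (Nat.not_even_iff_odd.2 (odd_of_aa hH (by omega))), hb]
    push_cast
    linarith
  · rw [if_neg hb]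
    rcases Nat.eq_zero_or_pos (aa Q H) with ha | ha
    · have h3 : ({i ∈ nn Q | i ∈ H} : Finset ℍ) = ∅ := by
        rw [← card_eq_zero]
        exact ha
      rw [h3, sum_empty, ha]
      norm_num
    · rw [if_neg (Nat.not_even_iff_odd.2 (odd_of_aa hH ha)), sq] at hS
      have e1 : |∑ i ∈ Q with i ∈ H, xx Q H i| ≤ 1 := by
        rcases mul_self_eq_one_iff.1 hS with h | h <;> rw [h] <;> norm_num
      have e2 := abs_sum_sign ({i ∈ Q \ nn Q | i ∈ H} : Finset ℍ) (xx Q H) (xx_sq Q H)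
      have e3 := abs_sum_sign ({i ∈ nn Q | i ∈ H} : Finset ℍ) (ee Q) (ee_sq Q)
      have e4 : (#({i ∈ Q \ nn Q | i ∈ H} : Finset ℍ) : ℤ) = bb Q H := rfl
      have e5 : (#({i ∈ nn Q | i ∈ H} : Finset ℍ) : ℤ) = aa Q H := rfl
      rw [e4] at e2
      rw [e5] at e3
      rw [hsplit] at e1
      set S := ∑ i ∈ nn Q with i ∈ H, ee Q i with hSdef
      set R := ∑ i ∈ Q \ nn Q with i ∈ H, xx Q H i with hRdef
      have e6 : |S| ≤ 1 + bb Q H := by
        have : S = (S + R) - R := by ring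
        rw [this]
        exact (abs_sub _ _).trans (by linarith)
      have e7 : S ^ 2 = |S| * |S| := by rw [← sq, sq_abs]
      have e8 : |S| * |S| ≤ aa Q H * (1 + bb Q H) :=
        mul_le_mul e3 e6 (abs_nonneg _) (by positivity)
      rw [e7]
      linarith

open Classical in
/-- the sum of the correlations -/
theorem sum_S {Q : Finset ℍ} :
    ∑ H ∈ det Q, ((∑ i ∈ nn Q with i ∈ H, ee Q i) ^ 2 - (aa Q H : ℤ)) =
      2 * ((∑ i ∈ nn Q, ee Q i) ^ 2 - #(nn Q)) := by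
  have h2 : ∀ H ∈ det Q, (∑ i ∈ nn Q with i ∈ H, ee Q i) ^ 2 - (aa Q H : ℤ) =
      ∑ x ∈ ({i ∈ nn Q | i ∈ H} : Finset ℍ).offDiag, ee Q x.1 * ee Q x.2 := by
    intro H _
    rw [sq_expand _ _ (ee_sq Q)]
    have : (#({i ∈ nn Q | i ∈ H} : Finset ℍ) : ℤ) = aa Q H := rfl
    rw [this]
    ring
  have h3 : ∑ H ∈ det Q, ∑ x ∈ ({i ∈ nn Q | i ∈ H} : Finset ℍ).offDiag, ee Q x.1 * ee Q x.2 =
      ∑ x ∈ (nn Q).offDiag, ∑ H ∈ det Q with x.1 ∈ H ∧ x.2 ∈ H, ee Q x.1 * ee Q x.2 := by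
    apply sum_comm'
    intro H x
    simp only [mem_offDiag, mem_filter]
    tauto
  have h4 : ∑ x ∈ (nn Q).offDiag, ∑ H ∈ det Q with x.1 ∈ H ∧ x.2 ∈ H, ee Q x.1 * ee Q x.2 =
      2 * ∑ x ∈ (nn Q).offDiag, ee Q x.1 * ee Q x.2 := by
    rw [mul_sum]
    apply sum_congr rfl
    intro x hx
    rw [mem_offDiag] at hx
    rw [sum_const, card_through (nn_sub Q hx.1) (nn_sub Q hx.2.1) hx.2.2]
    simp
  rw [sum_congr rfl h2, h3, h4, sq_expand _ _ (ee_sq Q)]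
  ring

open Classical in
theorem sum_ab (Q : Finset ℍ) : ∑ H ∈ det Q, aa Q H * bb Q H = 2 * (#(nn Q) * #(Q \ nn Q)) := by
  classical
  have h1 : ∀ H ∈ det Q, aa Q H * bb Q H =
      ∑ x ∈ ({i ∈ nn Q | i ∈ H} : Finset ℍ) ×ˢ ({i ∈ Q \ nn Q | i ∈ H} : Finset ℍ), 1 := by
    intro H _
    rw [sum_const, card_product, smul_eq_mul, mul_one]
    rfl
  have h2 : ∑ H ∈ det Q, ∑ x ∈ ({i ∈ nn Q | i ∈ H} : Finset ℍ) ×ˢ
      ({i ∈ Q \ nn Q | i ∈ H} : Finset ℍ), 1 =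
      ∑ x ∈ nn Q ×ˢ (Q \ nn Q), ∑ H ∈ det Q with x.1 ∈ H ∧ x.2 ∈ H, 1 := by
    apply sum_comm'
    intro H x
    simp only [mem_product, mem_filter]
    tauto
  have h3 : ∀ x ∈ nn Q ×ˢ (Q \ nn Q), ∑ H ∈ det Q with x.1 ∈ H ∧ x.2 ∈ H, 1 = 2 := by
    intro x hx
    rw [mem_product, mem_sdiff] at hx
    rw [sum_const, card_through (nn_sub Q hx.1) hx.2.1 (fun h => hx.2.2 (by rw [← h]; exact hx.1)),
      smul_eq_mul, mul_one]
  rw [sum_congr rfl h1, h2, sum_congr rfl h3, sum_const, card_product, smul_eq_mul, mul_comm]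

theorem sum_aa (Q : Finset ℍ) :
    ∑ H ∈ det Q, aa Q H * (aa Q H - 1) = 2 * (#(nn Q) * (#(nn Q) - 1)) := by
  classical
  have h1 : ∀ H ∈ det Q, aa Q H * (aa Q H - 1) =
      ∑ x ∈ ({i ∈ nn Q | i ∈ H} : Finset ℍ).offDiag, 1 := by
    intro H _
    rw [sum_const, offDiag_card, smul_eq_mul, mul_one, Nat.mul_sub, mul_one]
    rfl
  have h2 : ∑ H ∈ det Q, ∑ x ∈ ({i ∈ nn Q | i ∈ H} : Finset ℍ).offDiag, 1 =
      ∑ x ∈ (nn Q).offDiag, ∑ H ∈ det Q with x.1 ∈ H ∧ x.2 ∈ H, 1 := by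
    apply sum_comm'
    intro H x
    simp only [mem_offDiag, mem_filter]
    tauto
  have h3 : ∀ x ∈ (nn Q).offDiag, ∑ H ∈ det Q with x.1 ∈ H ∧ x.2 ∈ H, 1 = 2 := by
    intro x hx
    rw [mem_offDiag] at hx
    rw [sum_const, card_through (nn_sub Q hx.1) (nn_sub Q hx.2.1) hx.2.2, smul_eq_mul, mul_one]
  rw [sum_congr rfl h1, h2, sum_congr rfl h3, sum_const, offDiag_card, smul_eq_mul, Nat.mul_sub,
    mul_one, mul_comm]

open Classical in
theorem sum_bb (Q : Finset ℍ) :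
    ∑ H ∈ det Q, bb Q H * (cnt Q H - 1) = 2 * (#(Q \ nn Q) * (#Q - 1)) := by
  classical
  have h1 : ∀ H ∈ det Q, bb Q H * (cnt Q H - 1) =
      ∑ i ∈ ({i ∈ Q \ nn Q | i ∈ H} : Finset ℍ), (cnt Q H - 1) := by
    intro H _
    rw [sum_const, smul_eq_mul]
    rfl
  have h2 : ∑ H ∈ det Q, ∑ i ∈ ({i ∈ Q \ nn Q | i ∈ H} : Finset ℍ), (cnt Q H - 1) =
      ∑ i ∈ Q \ nn Q, ∑ H ∈ det Q with i ∈ H, (cnt Q H - 1) := by
    apply sum_comm'
    intro H i
    simp only [mem_filter]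
    tauto
  have h3 : ∀ i ∈ Q \ nn Q, ∑ H ∈ det Q with i ∈ H, (cnt Q H - 1) = 2 * (#Q - 1) :=
    fun i hi => sum_through (mem_sdiff.1 hi).1
  rw [sum_congr rfl h1, h2, sum_congr rfl h3, sum_const, smul_eq_mul]
  ring

open Classical in
/-- the horocycles with points of `nn Q` only -/
theorem pure_bound {Q : Finset ℍ} (hQ : Set.InjOn UpperHalfPlane.im Q) :
    ∑ H ∈ det Q with bb Q H = 0, (aa Q H - 1) ≤ 2 * (#(nn Q) * (#(Q \ nn Q) + 1)) := by
  classical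
  have h1 : ∑ H ∈ det Q, ((∑ i ∈ nn Q with i ∈ H, ee Q i) ^ 2 - (aa Q H : ℤ)) ≤
      ∑ H ∈ det Q, ((aa Q H : ℤ) * bb Q H - (if bb Q H = 0 then (aa Q H : ℤ) - 1 else 0)) :=
    sum_le_sum (fun H hH => S_le hQ hH)
  rw [sum_S, sum_sub_distrib] at h1
  have h2 : ∑ H ∈ det Q, ((aa Q H : ℤ) * bb Q H) = 2 * (#(nn Q) * #(Q \ nn Q)) := by
    have := sum_ab Q
    exact_mod_cast this
  have h3 : ∑ H ∈ det Q, (if bb Q H = 0 then (aa Q H : ℤ) - 1 else 0) =
      ((∑ H ∈ det Q with bb Q H = 0, (aa Q H - 1) : ℕ) : ℤ) := by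
    rw [← sum_filter]
    push_cast
    apply sum_congr rfl
    intro H hH
    rw [mem_filter] at hH
    have h4 := two_le_cnt hH.1
    have h5 := aa_add_bb Q H
    rw [Nat.cast_sub (by omega)]
    push_cast
    rfl
  rw [h2, h3] at h1
  have h4 : 0 ≤ (∑ i ∈ nn Q, ee Q i) ^ 2 := sq_nonneg _
  have h5 : ((∑ H ∈ det Q with bb Q H = 0, (aa Q H - 1) : ℕ) : ℤ) ≤
      2 * (#(nn Q) * (#(Q \ nn Q) + 1)) := by linarith
  exact_mod_cast h5

open Classical in
/-- Sets with at most `M` points on every horocycle. -/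
theorem max_bound {Q : Finset ℍ} (hQ : Set.InjOn UpperHalfPlane.im Q) {M : ℕ} (hM : 2 ≤ M)
    (h : ∀ H ∈ det Q, cnt Q H ≤ M) :
    #Q ≤ (2 * M - 1) * #(Q \ nn Q) + M + 1 := by
  classical
  set n₀ := #(nn Q) with hn₀
  set u := #(Q \ nn Q) with hu
  have hsum : u + n₀ = #Q := card_sdiff_add_card_eq_card (nn_sub Q)
  have h1 := pure_bound hQ
  rw [← hn₀, ← hu] at h1
  have h2 := sum_ab Q
  rw [← hn₀, ← hu] at h2
  have h3 := sum_aa Q
  rw [← hn₀] at h3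
  obtain ⟨m, rfl⟩ : ∃ m, M = m + 2 := ⟨M - 2, by omega⟩
  have h4 : ∑ H ∈ det Q, aa Q H * (aa Q H - 1) ≤
      ∑ H ∈ det Q, ((m + 2) * (if bb Q H = 0 then aa Q H - 1 else 0) + m * (aa Q H * bb Q H)) := by
    apply sum_le_sum
    intro H hH
    have e1 := h H hH
    have e2 := aa_add_bb Q H
    split_ifs with hb
    · rw [hb]
      have : aa Q H ≤ m + 2 := by omega
      simpa using Nat.mul_le_mul_right (aa Q H - 1) this
    · rw [mul_zero, zero_add]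
      have e3 : 1 ≤ bb Q H := by omega
      have e4 : aa Q H - 1 ≤ m := by omega
      calc aa Q H * (aa Q H - 1) ≤ aa Q H * m := Nat.mul_le_mul_left _ e4
        _ = m * (aa Q H * 1) := by ring
        _ ≤ m * (aa Q H * bb Q H) := Nat.mul_le_mul_left _ (Nat.mul_le_mul_left _ e3)
  rw [h3, sum_add_distrib, ← mul_sum, ← mul_sum, ← sum_filter, h2] at h4
  have h5 : 2 * (n₀ * (n₀ - 1)) ≤ (m + 2) * (2 * (n₀ * (u + 1))) + m * (2 * (n₀ * u)) :=
    h4.trans (Nat.add_le_add_right (Nat.mul_le_mul_left _ h1) _)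
  have h7 : 2 * (m + 2) - 1 = 2 * m + 3 := by omega
  rw [h7]
  rcases Nat.eq_zero_or_pos n₀ with h6 | h6
  · have : #Q = u := by omega
    rw [this]
    nlinarith
  · have h8 : n₀ - 1 ≤ (m + 2) * (u + 1) + m * u := by
      have h9 : (2 * n₀) * (n₀ - 1) ≤ (2 * n₀) * ((m + 2) * (u + 1) + m * u) := by
        calc (2 * n₀) * (n₀ - 1) = 2 * (n₀ * (n₀ - 1)) := by ring
          _ ≤ _ := h5
          _ = (2 * n₀) * ((m + 2) * (u + 1) + m * u) := by ring
      exact Nat.le_of_mul_le_mul_left h9 (by omega)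
    have h9 : n₀ ≤ (m + 2) * (u + 1) + m * u + 1 := by omega
    rw [← hsum]
    nlinarith

open Classical in
/-- The number of horocycles. -/
theorem h_bound {Q : Finset ℍ} (hQ : Set.InjOn UpperHalfPlane.im Q) :
    #(det Q) ≤ #Q * (3 * #(Q \ nn Q) + 1) := by
  classical
  set n₀ := #(nn Q) with hn₀
  set u := #(Q \ nn Q) with hu
  have hsum : u + n₀ = #Q := card_sdiff_add_card_eq_card (nn_sub Q)
  have h1 := pure_bound hQ
  rw [← hn₀, ← hu] at h1
  have h2 := sum_bb Q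
  rw [← hu] at h2
  have h3 : #(det Q) = #{H ∈ det Q | bb Q H = 0} + #{H ∈ det Q | ¬ bb Q H = 0} :=
    (card_filter_add_card_filter_not _).symm
  have h4 : #{H ∈ det Q | bb Q H = 0} * 2 ≤ ∑ H ∈ det Q with bb Q H = 0, (aa Q H - 1) := by
    have := card_nsmul_le_sum {H ∈ det Q | bb Q H = 0} (fun H => aa Q H - 1) 2 (fun H hH => by
      rw [mem_filter] at hH
      have e1 := two_le_cnt hH.1
      have e2 := aa_add_bb Q H
      have e3 := odd_of_aa hH.1 (by omega)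
      obtain ⟨k, hk⟩ := e3
      omega)
    rwa [smul_eq_mul] at this
  have h5 : #{H ∈ det Q | ¬ bb Q H = 0} ≤ ∑ H ∈ det Q, bb Q H * (cnt Q H - 1) := by
    have e1 : #{H ∈ det Q | ¬ bb Q H = 0} • 1 ≤
        ∑ H ∈ det Q with ¬ bb Q H = 0, bb Q H * (cnt Q H - 1) := by
      apply card_nsmul_le_sum
      intro H hH
      rw [mem_filter] at hH
      have e1 := two_le_cnt hH.1
      exact Nat.mul_pos (by omega) (by omega)
    rw [smul_eq_mul, mul_one] at e1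
    exact e1.trans (sum_le_sum_of_subset (filter_subset _ _))
  rw [h2] at h5
  have h6 : #{H ∈ det Q | bb Q H = 0} ≤ n₀ * (u + 1) := by omega
  have h7 : 2 * (u * (#Q - 1)) ≤ 2 * (u * #Q) :=
    Nat.mul_le_mul_left _ (Nat.mul_le_mul_left _ (Nat.sub_le _ _))
  have h8 : n₀ * (u + 1) ≤ #Q * (u + 1) := Nat.mul_le_mul_right _ (by omega)
  calc #(det Q) ≤ #Q * (u + 1) + 2 * (u * #Q) := by omega
    _ = #Q * (3 * u + 1) := by ring

end Pool.Agent.HoroSix
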