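import Pool.Agent.HoroSix.Even

/-!
# Horocycles with an even number of points: the final statements
-/

set_option autoImplicit false

open Finset UpperHalfPlane

namespace Pool.Agent.HoroSix

open Pool.Agent.Hhelper97.Horo Pool.Agent.HoroSmall

open Classical in
/-- The points of `P` which lie on a determined horocycle containing an even number of points
of `P`. -/
noncomputable def evenPts (P : Finset ℍ) : Finset ℍ :=
  {p ∈ P | ∃ H ∈ determined P, p ∈ H ∧ Even ((P : Set ℍ) ∩ H).ncard}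

open Classical in
theorem evenPts_eq (P : Finset ℍ) : evenPts P = P \ nn P := by
  ext p
  unfold evenPts nn
  simp only [mem_filter, mem_sdiff, not_and, not_forall]
  constructor
  · rintro ⟨hp, H, hH, hpH, he⟩
    refine ⟨hp, fun _ => ⟨H, mem_det.2 hH, hpH, ?_⟩⟩
    rw [← ncard_eq_cnt, Nat.not_odd_iff_even]
    exact he
  · rintro ⟨hp, h⟩
    obtain ⟨H, hH, hpH, he⟩ := h hp
    refine ⟨hp, H, mem_det.1 hH, hpH, ?_⟩
    rw [ncard_eq_cnt, ← Nat.not_odd_iff_even]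
    exact he

theorem det_preimage {P : Finset ℍ} {φ : ℍ → ℍ} (hφ : Function.Bijective φ)
    (hpre : ∀ K, IsHorocycle K → IsHorocycle (φ ⁻¹' K)) [DecidableEq ℍ] {H : Set ℍ}
    (hH : H ∈ det P) : ∃ K ∈ det (P.image φ), φ ⁻¹' K = H := by
  classical
  obtain ⟨hHh, p, hp, q, hq, hpq, hpH, hqH⟩ := mem_det.1 hH
  have hpq' : φ p ≠ φ q := fun h => hpq (hφ.injective h)
  obtain ⟨K₁, K₂, k1, k2, hne, p1, q1, p2, q2, _⟩ := two_through hpq'
  have hne' : φ ⁻¹' K₁ ≠ φ ⁻¹' K₂ := fun h => hne (hφ.surjective.preimage_injective h)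
  rcases mem_of_two hpq (hpre _ k1) (hpre _ k2) hne' p1 q1 p2 q2 hHh hpH hqH with h | h
  · exact ⟨K₁, mem_det.2 ⟨k1, _, mem_image_of_mem _ hp, _, mem_image_of_mem _ hq, hpq', p1, q1⟩,
      h.symm⟩
  · exact ⟨K₂, mem_det.2 ⟨k2, _, mem_image_of_mem _ hp, _, mem_image_of_mem _ hq, hpq', p2, q2⟩,
      h.symm⟩

theorem card_det_le {P : Finset ℍ} {φ : ℍ → ℍ} (hφ : Function.Bijective φ)
    (hpre : ∀ K, IsHorocycle K → IsHorocycle (φ ⁻¹' K)) [DecidableEq ℍ] :
    #(det P) ≤ #(det (P.image φ)) := by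
  classical
  have h1 : det P ⊆ (det (P.image φ)).image (fun K => φ ⁻¹' K) := by
    intro H hH
    obtain ⟨K, hK, h⟩ := det_preimage hφ hpre hH
    exact mem_image.2 ⟨K, hK, h⟩
  exact (card_le_card h1).trans card_image_le

open Classical in
theorem evenPts_image {P : Finset ℍ} {φ : ℍ → ℍ} (hφ : Function.Bijective φ)
    (hpre : ∀ K, IsHorocycle K → IsHorocycle (φ ⁻¹' K)) :
    #(P.image φ \ nn (P.image φ)) ≤ #(evenPts P) := by
  have h1 : P.image φ \ nn (P.image φ) ⊆ (evenPts P).image φ := by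
    intro z hz
    rw [← evenPts_eq] at hz
    unfold evenPts at hz
    rw [mem_filter] at hz
    obtain ⟨hz1, K, hK, hzK, he⟩ := hz
    obtain ⟨p, hp, rfl⟩ := mem_image.1 hz1
    obtain ⟨h1, h2⟩ := det_image hφ hpre (mem_det.2 hK)
    refine mem_image_of_mem _ (mem_filter.2 ⟨hp, φ ⁻¹' K, mem_det.1 h1, hzK, ?_⟩)
    rw [ncard_eq_cnt, ← h2, ← ncard_eq_cnt]
    exact he
  exact (card_le_card h1).trans card_image_le

theorem two_le_evenPts {P : Finset ℍ} (hP : 2 ≤ #P) : 2 ≤ #(evenPts P) := by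
  classical
  obtain ⟨H, hH, he⟩ := exists_even hP
  obtain ⟨hHh, p, hp, q, hq, hpq, hpH, hqH⟩ := hH
  have h1 : 1 < #(evenPts P) := one_lt_card.2
    ⟨p, mem_filter.2 ⟨hp, H, ⟨hHh, p, hp, q, hq, hpq, hpH, hqH⟩, hpH, he⟩,
      q, mem_filter.2 ⟨hq, H, ⟨hHh, p, hp, q, hq, hpq, hpH, hqH⟩, hqH, he⟩, hpq⟩
  exact h1

theorem h_le_evenPts (P : Finset ℍ) : h P ≤ #P * (3 * #(evenPts P) + 1) := by
  classical
  obtain ⟨φ, hφ, hpre, hinj⟩ := exists_generic P
  have h1 := h_bound hinj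
  have h2 := card_det_le (P := P) hφ hpre
  have h3 := evenPts_image (P := P) hφ hpre
  rw [card_image_of_injective _ hφ.injective] at h1
  rw [← card_det]
  exact h2.trans (h1.trans (Nat.mul_le_mul_left _ (by omega)))

theorem le_evenPts {P : Finset ℍ} {M : ℕ} (hM : 2 ≤ M)
    (h : ∀ H, IsHorocycle H → ((P : Set ℍ) ∩ H).ncard ≤ M) :
    #P ≤ (2 * M - 1) * #(evenPts P) + M + 1 := by
  classical
  obtain ⟨φ, hφ, hpre, hinj⟩ := exists_generic P
  have h1 := max_bound hinj hM (fun K hK => by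
    obtain ⟨h1, h2⟩ := det_image hφ hpre hK
    rw [h2, ← ncard_eq_cnt]
    exact h _ (mem_det.1 h1).1)
  have h3 := evenPts_image (P := P) hφ hpre
  rw [card_image_of_injective _ hφ.injective] at h1
  have h4 := Nat.mul_le_mul_left (2 * M - 1) h3
  omega

/-- Sets with at most three points on every horocycle. -/
theorem three_on {P : Finset ℍ}
    (h3 : ∀ H, IsHorocycle H → ((P : Set ℍ) ∩ H).ncard ≤ 3) :
    #P ≤ 5 * {H ∈ determined P | ((P : Set ℍ) ∩ H).ncard = 2}.ncard + 4 ∧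
    5 * #P ^ 2 ≤ 15 * h P + 3 * #P + 8 := by
  classical
  have e2 : {H ∈ determined P | ((P : Set ℍ) ∩ H).ncard = 2}.ncard =
      #{H ∈ det P | cnt P H = 2} := by
    rw [← Set.ncard_coe_finset]
    congr 1
    ext H
    simp only [coe_filter, Set.mem_ofPred_eq, ncard_eq_cnt]
    rw [mem_det]
    rfl
  have h3' : ∀ H ∈ det P, cnt P H ≤ 3 := by
    intro H hH
    rw [← ncard_eq_cnt]
    exact h3 H (mem_det.1 hH).1
  have h1 := le_evenPts (M := 3) (by norm_num) h3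
  have h2 := nn_bound h3'
  have h4 : #(evenPts P) + #(nn P) = #P := by
    rw [evenPts_eq]
    exact card_sdiff_add_card_eq_card (nn_sub P)
  rw [e2]
  have h5 : #P ≤ 5 * #{H ∈ det P | cnt P H = 2} + 4 := by omega
  refine ⟨h5, ?_⟩
  have e : ∀ H ∈ det P, cnt P H * (cnt P H - 1) + 4 * (if cnt P H = 2 then 1 else 0) = 6 := by
    intro H hH
    have e1 := two_le_cnt hH
    have e3 := h3' H hH
    have e4 : cnt P H = 2 ∨ cnt P H = 3 := by omega
    rcases e4 with e4 | e4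
    · rw [e4, if_pos rfl]
    · rw [e4, if_neg (by norm_num)]
  have h6 := sum_congr rfl e
  rw [sum_add_distrib, ← mul_sum, ← card_filter, sum_formula, sum_const, card_det,
    smul_eq_mul] at h6
  rcases Nat.eq_zero_or_pos #P with h7 | h7
  · rw [h7]
    omega
  · have h8 : ((2 * (#P * (#P - 1)) + 4 * #{H ∈ det P | cnt P H = 2} : ℕ) : ℤ) =
        ((h P * 6 : ℕ) : ℤ) := by rw [h6]
    push_cast [Nat.cast_sub (by omega : 1 ≤ #P)] at h8
    have h9 : (#P : ℤ) ≤ 5 * #{H ∈ det P | cnt P H = 2} + 4 := by exact_mod_cast h5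
    have h10 : (5 * #P ^ 2 : ℤ) ≤ 15 * h P + 3 * #P + 8 := by nlinarith
    exact_mod_cast h10

end Pool.Agent.HoroSix
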