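import Pool.Agent.HoroSmall.Basic

/-!
# Six points with four of them on a horocycle
-/

set_option autoImplicit false

open Finset UpperHalfPlane

namespace Pool.Agent.HoroSix

open Pool.Agent.Hhelper97.Horo Pool.Agent.HoroSmall

theorem four_sorted {A : Finset ℝ} (hA : #A = 4) :
    ∃ a b c d : ℝ, a < b ∧ b < c ∧ c < d ∧ A = {a, b, c, d} := by
  have e := A.orderEmbOfFin hA
  refine ⟨A.orderEmbOfFin hA 0, A.orderEmbOfFin hA 1, A.orderEmbOfFin hA 2,
    A.orderEmbOfFin hA 3, ?_, ?_, ?_, ?_⟩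
  · exact (A.orderEmbOfFin hA).strictMono (by decide)
  · exact (A.orderEmbOfFin hA).strictMono (by decide)
  · exact (A.orderEmbOfFin hA).strictMono (by decide)
  · symm
    apply eq_of_subset_of_card_le
    · intro x hx
      simp only [mem_insert, mem_singleton] at hx
      rcases hx with rfl | rfl | rfl | rfl <;> exact orderEmbOfFin_mem A hA _
    · have i := (A.orderEmbOfFin hA).injective
      rw [hA, card_insert_of_notMem, card_insert_of_notMem, card_insert_of_notMem,
        card_singleton]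
      · rw [mem_singleton]
        intro h
        exact absurd (i h) (by decide)
      · simp only [mem_insert, mem_singleton, not_or]
        exact ⟨fun h => absurd (i h) (by decide), fun h => absurd (i h) (by decide)⟩
      · simp only [mem_insert, mem_singleton, not_or]
        exact ⟨fun h => absurd (i h) (by decide), fun h => absurd (i h) (by decide),
          fun h => absurd (i h) (by decide)⟩

theorem crd_strictMono {x κ : ℝ} (hκ : 0 < κ) : StrictMono (crd x κ) := by
  intro a b h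
  by_contra h1
  have h2 := (E_strictMono (x := x) hκ).monotone (not_lt.1 h1)
  rw [E_crd hκ, E_crd hκ] at h2
  linarith

/-- a point above the line with two lights: the light at an end -/
theorem above_light {R : ℍ} (hR : 1 < R.im) {A : Finset ℝ} (h2 : #(LA R A) = 2) {B : Set ℍ}
    (hB : B ∈ LA R A) : ∃ a ∈ A, ∃ z, B = hor a z ∧
      (((∀ c ∈ A, c ≤ a) ∧ a < z) ∨ ((∀ c ∈ A, a ≤ c) ∧ z < a)) := by
  classical
  have hl := (len_spec R.im_pos hR.ne').1
  have hκ := abs_pos' hR.ne'
  have h1 := card_LA hR A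
  obtain ⟨s, hs, t, ht, ht', rfl⟩ := mem_LL.1 hB
  have hne : (coords R A).Nonempty := ⟨s, hs⟩
  have hmono := E_strictMono (x := R.re) hκ
  refine ⟨_, (E_mem hR.ne').2 hs, _, rfl, ?_⟩
  have hcrd : ∀ c ∈ A, crd R.re |R.im - 1| c ∈ coords R A := fun c hc => mem_image_of_mem _ hc
  have hE : ∀ c, E R.re |R.im - 1| (crd R.re |R.im - 1| c) = c := E_crd hκ
  rcases ht with rfl | rfl
  · left
    have h3 : #(lights (coords R A) (fun s => s + len R.im)) = 1 := by omega
    have h4 : (coords R A).max' hne ∈ lights (coords R A) (fun s => s + len R.im) := by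
      unfold lights
      rw [mem_filter]
      refine ⟨max'_mem _ hne, Or.inl fun h => ?_⟩
      have := le_max' _ _ h
      linarith
    have h5 : s ∈ lights (coords R A) (fun s => s + len R.im) := by
      unfold lights
      rw [mem_filter]
      exact ⟨hs, ht'⟩
    obtain ⟨m, hm⟩ := card_eq_one.1 h3
    rw [hm, mem_singleton] at h4 h5
    refine ⟨fun c hc => ?_, hmono (by linarith)⟩
    rw [← hE c]
    apply hmono.monotone
    rw [h5, ← h4]
    exact le_max' _ _ (hcrd c hc)
  · right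
    have h3 : #(lights (coords R A) (fun s => s - len R.im)) = 1 := by
      rw [card_lights_sub hl]; omega
    have h4 : (coords R A).min' hne ∈ lights (coords R A) (fun s => s - len R.im) := by
      unfold lights
      rw [mem_filter]
      refine ⟨min'_mem _ hne, Or.inl fun h => ?_⟩
      have := min'_le _ _ h
      linarith
    have h5 : s ∈ lights (coords R A) (fun s => s - len R.im) := by
      unfold lights
      rw [mem_filter]
      exact ⟨hs, ht'⟩
    obtain ⟨m, hm⟩ := card_eq_one.1 h3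
    rw [hm, mem_singleton] at h4 h5
    refine ⟨fun c hc => ?_, hmono (by linarith)⟩
    rw [← hE c]
    apply hmono.monotone
    rw [h5, ← h4]
    exact min'_le _ _ (hcrd c hc)

/-- a point above the line with two lights: the chain -/
theorem above_chain {R : ℍ} (hR : 1 < R.im) {a b c d : ℝ} (hab : a < b) (hbc : b < c)
    (hcd : c < d) (h2 : #(LA R {a, b, c, d}) = 2) :
    R ∈ hor a b ∧ R ∈ hor b c ∧ R ∈ hor c d := by
  classical
  have hl := (len_spec R.im_pos hR.ne').1
  have hκ := abs_pos' hR.ne'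
  have h1 := card_LA hR {a, b, c, d}
  have hm := crd_strictMono (x := R.re) hκ
  set φ := crd R.re |R.im - 1| with hφ
  have hS : coords R {a, b, c, d} = {φ a, φ b, φ c, φ d} := by
    unfold coords
    rw [image_insert, image_insert, image_insert, image_singleton]
  have m1 := hm hab
  have m2 := hm hbc
  have m3 := hm hcd
  set l := len R.im with hlen
  have h3 : #(lights (coords R {a, b, c, d}) (fun s => s + l)) = 1 := by omega
  have h4 : φ d ∈ lights (coords R {a, b, c, d}) (fun s => s + l) := by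
    rw [hS]
    unfold lights
    rw [mem_filter]
    refine ⟨by simp, Or.inl fun h => ?_⟩
    simp only [mem_insert, mem_singleton] at h
    rcases h with h | h | h | h <;> linarith
  have h5 : ∀ s ∈ ({φ a, φ b, φ c, φ d} : Finset ℝ), s ≠ φ d →
      s + l ∈ ({φ a, φ b, φ c, φ d} : Finset ℝ) := by
    intro s hs hne
    by_contra h6
    obtain ⟨m, hm'⟩ := card_eq_one.1 h3
    have h7 : s ∈ lights (coords R {a, b, c, d}) (fun s => s + l) := by
      rw [hS]
      unfold lights
      rw [mem_filter]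
      exact ⟨hs, Or.inl h6⟩
    rw [hm', mem_singleton] at h4 h7
    exact hne (h7.trans h4.symm)
  have e3 : φ d = φ c + l := by
    have h6 := h5 (φ c) (by simp) m3.ne
    simp only [mem_insert, mem_singleton] at h6
    rcases h6 with h6 | h6 | h6 | h6 <;> linarith
  have e2 : φ c = φ b + l := by
    have h6 := h5 (φ b) (by simp) (m2.trans m3).ne
    simp only [mem_insert, mem_singleton] at h6
    rcases h6 with h6 | h6 | h6 | h6 <;> linarith
  have e1 : φ b = φ a + l := by
    have h6 := h5 (φ a) (by simp) (m1.trans (m2.trans m3)).ne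
    simp only [mem_insert, mem_singleton] at h6
    rcases h6 with h6 | h6 | h6 | h6 <;> linarith
  have k : ∀ x y : ℝ, φ y = φ x + l → R ∈ hor x y := by
    intro x y hxy
    have h6 := (above_iff' hR (φ x) (φ y)).2 (Or.inl hxy)
    rwa [E_crd hκ, E_crd hκ] at h6
  exact ⟨k _ _ e1, k _ _ e2, k _ _ e3⟩

theorem matching {s₁ s₂ s₃ s₄ m : ℝ} (h12 : s₁ < s₂) (h23 : s₂ < s₃) (h34 : s₃ < s₄)
    (h : ∀ s ∈ ({s₁, s₂, s₃, s₄} : Finset ℝ), m - s ∈ ({s₁, s₂, s₃, s₄} : Finset ℝ) ∧ m - s ≠ s) :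
    s₁ + s₄ = m ∧ s₂ + s₃ = m := by
  have e1 := h s₁ (by simp)
  have e2 := h s₂ (by simp)
  have e4 := h s₄ (by simp)
  simp only [mem_insert, mem_singleton] at e1 e2 e4
  have h14 : s₁ + s₄ = m := by
    rcases e1.1 with h1 | h1 | h1 | h1 <;> rcases e4.1 with h4 | h4 | h4 | h4 <;> linarith
  refine ⟨h14, ?_⟩
  rcases e2.1 with h1 | h1 | h1 | h1
  · linarith
  · exact absurd h1 e2.2
  · linarith
  · linarith

/-- a point below the line with two lights -/
theorem below_struct {R : ℍ} (hR : R.im < 1) {a b c d : ℝ} (hab : a < b) (hbc : b < c)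
    (hcd : c < d) (h2 : #(LB R {a, b, c, d}) = 2) :
    ∃ m : ℝ, (m = len R.im ∨ m = -len R.im) ∧
      (∀ s ∈ coords R {a, b, c, d}, m - s ∈ coords R {a, b, c, d}) ∧
      (∃ s ∈ coords R {a, b, c, d}, -m - s ∈ coords R {a, b, c, d} ∧ -m - s ≠ s) ∧
      crd R.re |R.im - 1| a + crd R.re |R.im - 1| d = m ∧
      crd R.re |R.im - 1| b + crd R.re |R.im - 1| c = m := by
  classical
  have hl := (len_spec R.im_pos hR.ne).1
  have hκ := abs_pos' hR.ne
  have h1 := card_LB hR {a, b, c, d}
  have hm := crd_strictMono (x := R.re) hκ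
  have hS : coords R {a, b, c, d} = {crd R.re |R.im - 1| a, crd R.re |R.im - 1| b,
      crd R.re |R.im - 1| c, crd R.re |R.im - 1| d} := by
    unfold coords
    rw [image_insert, image_insert, image_insert, image_singleton]
  have m1 := hm hab
  have m2 := hm hbc
  have m3 := hm hcd
  have h4 : #(coords R {a, b, c, d}) = 4 := by
    rw [card_coords hR.ne, card_insert_of_notMem, card_insert_of_notMem, card_insert_of_notMem,
      card_singleton]
    · rw [mem_singleton]; exact hcd.ne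
    · simp only [mem_insert, mem_singleton, not_or]
      exact ⟨hbc.ne, (hbc.trans hcd).ne⟩
    · simp only [mem_insert, mem_singleton, not_or]
      exact ⟨hab.ne, (hab.trans hbc).ne, (hab.trans (hbc.trans hcd)).ne⟩
  set l := len R.im with hlen
  have par : ∀ m : ℝ, Even #(lights (coords R {a, b, c, d}) (fun s => m - s)) := by
    intro m
    rw [← ZMod.natCast_eq_zero_iff_even, lights_reflect_parity, h4]
    decide
  -- the number of elements which are not lights
  have non : ∀ m : ℝ, #(lights (coords R {a, b, c, d}) (fun s => m - s)) = 2 →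
      ∃ s ∈ coords R {a, b, c, d}, m - s ∈ coords R {a, b, c, d} ∧ m - s ≠ s := by
    intro m h5
    by_contra h6
    push Not at h6
    have h7 : lights (coords R {a, b, c, d}) (fun s => m - s) = coords R {a, b, c, d} := by
      unfold lights
      rw [filter_true_of_mem]
      intro s hs
      by_cases h8 : m - s ∈ coords R {a, b, c, d}
      · exact Or.inr (h6 s hs h8)
      · exact Or.inl h8
    rw [h7, h4] at h5
    omega
  have full : ∀ m : ℝ, #(lights (coords R {a, b, c, d}) (fun s => m - s)) = 0 →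
      ∀ s ∈ coords R {a, b, c, d}, m - s ∈ coords R {a, b, c, d} ∧ m - s ≠ s := by
    intro m h5 s hs
    rw [card_eq_zero] at h5
    by_contra h6
    have h7 : s ∈ lights (coords R {a, b, c, d}) (fun s => m - s) := by
      unfold lights
      rw [mem_filter]
      refine ⟨hs, ?_⟩
      by_cases h8 : m - s ∈ coords R {a, b, c, d}
      · right
        by_contra h9
        exact h6 ⟨h8, h9⟩
      · exact Or.inl h8
    rw [h5] at h7
    exact absurd h7 (notMem_empty _)
  have p1 := par l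
  have p2 := par (-l)
  obtain ⟨k1, hk1⟩ := p1
  obtain ⟨k2, hk2⟩ := p2
  rcases Nat.eq_zero_or_pos k1 with h5 | h5
  · have f1 := full l (by omega)
    refine ⟨l, Or.inl rfl, fun s hs => (f1 s hs).1, ?_, ?_⟩
    · obtain ⟨s, hs, h6, h7⟩ := non (-l) (by omega)
      exact ⟨s, hs, h6, h7⟩
    · rw [hS] at f1
      exact matching m1 m2 m3 f1
  · have f1 := full (-l) (by omega)
    refine ⟨-l, Or.inr rfl, fun s hs => (f1 s hs).1, ?_, ?_⟩
    · obtain ⟨s, hs, h6, h7⟩ := non l (by omega)
      rw [neg_neg]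
      exact ⟨s, hs, h6, h7⟩
    · rw [hS] at f1
      exact matching m1 m2 m3 f1

theorem below_pairs {R : ℍ} (hR : R.im < 1) {a b c d : ℝ} (hab : a < b) (hbc : b < c)
    (hcd : c < d) (h2 : #(LB R {a, b, c, d}) = 2) : R ∈ hor a d ∧ R ∈ hor b c := by
  obtain ⟨m, hm, _, _, h3, h4⟩ := below_struct hR hab hbc hcd h2
  have hκ := abs_pos' hR.ne
  have k : ∀ x y : ℝ, crd R.re |R.im - 1| x + crd R.re |R.im - 1| y = m → R ∈ hor x y := by
    intro x y hxy
    have h6 := (below_iff' hR (crd R.re |R.im - 1| x) (crd R.re |R.im - 1| y)).2 (by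
      rcases hm with hm | hm
      · left; linarith
      · right; linarith)
    rwa [E_crd hκ, E_crd hκ] at h6
  exact ⟨k _ _ h3, k _ _ h4⟩

/-- a point below the line with two lights has no light outside the interval -/
theorem below_light {R : ℍ} (hR : R.im < 1) {a b c d : ℝ} (hab : a < b) (hbc : b < c)
    (hcd : c < d) (h2 : #(LB R {a, b, c, d}) = 2) {x z : ℝ}
    (hx : x ∈ ({a, b, c, d} : Finset ℝ)) (hz : z ∉ ({a, b, c, d} : Finset ℝ)) (h : R ∈ hor x z)
    (h3 : ((∀ y ∈ ({a, b, c, d} : Finset ℝ), y ≤ x) ∧ x < z) ∨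
      ((∀ y ∈ ({a, b, c, d} : Finset ℝ), x ≤ y) ∧ z < x)) : False := by
  classical
  obtain ⟨m, hm, h4, ⟨s, hs, h5, _⟩, _, _⟩ := below_struct hR hab hbc hcd h2
  have hκ := abs_pos' hR.ne
  have hmono := crd_strictMono (x := R.re) hκ
  have h6 := (below_iff' hR (crd R.re |R.im - 1| x) (crd R.re |R.im - 1| z)).1
    (by rwa [E_crd hκ, E_crd hκ])
  have hxS : crd R.re |R.im - 1| x ∈ coords R {a, b, c, d} := mem_image_of_mem _ hx
  have hzS : crd R.re |R.im - 1| z ∉ coords R {a, b, c, d} := by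
    intro h7
    obtain ⟨z', hz', h8⟩ := mem_image.1 h7
    rw [crd_injective hκ h8] at hz'
    exact hz hz'
  have h7 : crd R.re |R.im - 1| z = -m - crd R.re |R.im - 1| x := by
    have h8 := h4 _ hxS
    rcases hm with hm | hm <;> rcases h6 with h6 | h6
    · rw [h6, ← hm] at hzS
      exact absurd h8 hzS
    · rw [h6, hm]
    · rw [h6, hm, neg_neg]
    · rw [h6, ← hm] at hzS
      exact absurd h8 hzS
  obtain ⟨u, hu, rfl⟩ := mem_image.1 hs
  obtain ⟨v, hv, h8⟩ := mem_image.1 h5
  rcases h3 with ⟨h9, h10⟩ | ⟨h9, h10⟩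
  · have e1 := hmono.monotone (h9 u hu)
    have e2 := hmono.monotone (h9 v hv)
    have e3 := hmono h10
    linarith
  · have e1 := hmono.monotone (h9 u hu)
    have e2 := hmono.monotone (h9 v hv)
    have e3 := hmono h10
    linarith

theorem not_three {p q : ℍ} (hpq : p ≠ q) {K₁ K₂ K₃ : Set ℍ} (h₁ : IsHorocycle K₁)
    (h₂ : IsHorocycle K₂) (h₃ : IsHorocycle K₃) (h12 : K₁ ≠ K₂) (h13 : K₁ ≠ K₃) (h23 : K₂ ≠ K₃)
    (hp₁ : p ∈ K₁) (hq₁ : q ∈ K₁) (hp₂ : p ∈ K₂) (hq₂ : q ∈ K₂) (hp₃ : p ∈ K₃) (hq₃ : q ∈ K₃) :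
    False := by
  rcases mem_of_two hpq h₁ h₂ h12 hp₁ hq₁ hp₂ hq₂ h₃ hp₃ hq₃ with h | h
  · exact h13 h.symm
  · exact h23 h.symm

theorem hor_ne {a b c : ℝ} (K : Set ℍ) (h : c ≠ a) (h' : c ≠ b) (hc : pt c ∈ K) :
    hor a b ≠ K := by
  intro h1
  rw [← h1, pt_mem_hor] at hc
  tauto

/-- Four points on the line of height one and two points off the line. -/
theorem four_two {A : Finset ℝ} (hA : #A = 4) {p q : ℍ} (hp : p.im ≠ 1) (hq : q.im ≠ 1)
    (hpq : p ≠ q) {P : Finset ℍ} (hpP : p ∈ P) (hqP : q ∈ P) (hP : ∀ a ∈ A, pt a ∈ P) :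
    11 ≤ h P := by
  classical
  have hAne : A.Nonempty := card_pos.1 (by omega)
  have hc : (4 : ℕ).choose 2 = 6 := rfl
  obtain ⟨L, gL, hL1, hL2⟩ := exists_good hp hAne
  obtain ⟨L', gL', hL1', hL2'⟩ := exists_good hq hAne
  obtain ⟨k, hk⟩ := gL.1
  obtain ⟨k', hk'⟩ := gL'.1
  have l1 := gL.2.1
  have l2 := gL'.2.1
  by_cases h4 : 4 ≤ #L
  · have h5 := count_one (A := A) (by omega) hp (M := L) (fun K hK => by
      obtain ⟨_, h4, h5, h6⟩ := gL.2.2.2 K hK
      exact ⟨h4, h5, h6⟩) hpP hP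
    rw [hA, hc] at h5
    omega
  by_cases h4' : 4 ≤ #L'
  · have h5 := count_one (A := A) (by omega) hq (M := L') (fun K hK => by
      obtain ⟨_, h4, h5, h6⟩ := gL'.2.2.2 K hK
      exact ⟨h4, h5, h6⟩) hqP hP
    rw [hA, hc] at h5
    omega
  have c1 : #L = 2 := by omega
  have c2 : #L' = 2 := by omega
  have fin : Disjoint L L' → 11 ≤ h P := by
    intro hd
    have h5 := count_two (A := A) (by omega) hp hq hpq (M₁ := L ∪ L') (M₀ := ∅) (fun K hK => by
      rcases mem_union.1 hK with h2 | h2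
      · obtain ⟨_, h3, h4, h5⟩ := gL.2.2.2 K h2
        exact ⟨h3, Or.inl h4, h5⟩
      · obtain ⟨_, h3, h4, h5⟩ := gL'.2.2.2 K h2
        exact ⟨h3, Or.inr h4, h5⟩) (by simp) hpP hqP hP
    rw [hA, hc, card_union_of_disjoint hd, c1, c2, card_empty] at h5
    omega
  apply fin
  rw [disjoint_left]
  intro B hB hB'
  obtain ⟨_, Bh, Bp, x, hx, hxB, hxB'⟩ := gL.2.2.2 B hB
  obtain ⟨_, _, Bq, y, hy, hyB, hyB'⟩ := gL'.2.2.2 B hB'
  obtain ⟨a, b, c, d, hab, hbc, hcd, rfl⟩ := four_sorted hA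
  -- a mixed pair
  have mixed : ∀ (p q : ℍ), 1 < p.im → q.im < 1 → #(LA p {a, b, c, d}) = 2 →
      #(LB q {a, b, c, d}) = 2 → B ∈ LA p {a, b, c, d} → q ∈ B → False := by
    intro p q hp hq h2 h2' hB hqB
    obtain ⟨x, hx, z, rfl, h3⟩ := above_light hp h2 hB
    refine below_light hq hab hbc hcd h2' hx ?_ hqB h3
    intro hz
    rcases h3 with ⟨h4, h5⟩ | ⟨h4, h5⟩
    · exact absurd (h4 z hz) (not_le.2 h5)
    · exact absurd (h4 z hz) (not_le.2 h5)
  -- B contains one point only
  have hB1 : ∀ u ∈ ({a, b, c, d} : Finset ℝ), ∀ v ∈ ({a, b, c, d} : Finset ℝ), u ≠ v →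
      hor u v ≠ B := by
    intro u hu v hv huv h5
    have h6 := hxB' u hu (by rw [← h5, pt_mem_hor]; left; rfl)
    have h7 := hxB' v hv (by rw [← h5, pt_mem_hor]; right; rfl)
    exact huv (h6.trans h7.symm)
  rcases lt_or_gt_of_ne hp with h1 | h1 <;> rcases lt_or_gt_of_ne hq with h2 | h2
  · -- both below
    rw [hL1 h1] at c1
    rw [hL1' h2] at c2
    obtain ⟨p1, p2⟩ := below_pairs h1 hab hbc hcd c1
    obtain ⟨q1, q2⟩ := below_pairs h2 hab hbc hcd c2
    refine not_three hpq (isHorocycle_hor a d) (isHorocycle_hor b c) Bh ?_ ?_ ?_ p1 q1 p2 q2 Bp Bq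
    · exact hor_ne (c := b) _ hab.ne' (hbc.trans hcd).ne (pt_mem_hor.2 (Or.inl rfl))
    · exact hB1 a (by simp) d (by simp) (hab.trans (hbc.trans hcd)).ne
    · exact hB1 b (by simp) c (by simp) hbc.ne
  · rw [hL1 h1] at c1
    rw [hL2' h2] at c2 hB'
    exact mixed q p h2 h1 c2 c1 hB' Bp
  · rw [hL2 h1] at c1 hB
    rw [hL1' h2] at c2
    exact mixed p q h1 h2 c1 c2 hB Bq
  · rw [hL2 h1] at c1
    rw [hL2' h2] at c2
    obtain ⟨p1, p2, p3⟩ := above_chain h1 hab hbc hcd c1
    obtain ⟨q1, q2, q3⟩ := above_chain h2 hab hbc hcd c2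
    refine not_three hpq (isHorocycle_hor a b) (isHorocycle_hor b c) (isHorocycle_hor c d)
      ?_ ?_ ?_ p1 q1 p2 q2 p3 q3
    · exact hor_ne (c := c) _ (hab.trans hbc).ne' hbc.ne' (pt_mem_hor.2 (Or.inr rfl))
    · exact hor_ne (c := c) _ (hab.trans hbc).ne' hbc.ne' (pt_mem_hor.2 (Or.inl rfl))
    · exact hor_ne (c := d) _ (hbc.trans hcd).ne' hcd.ne' (pt_mem_hor.2 (Or.inr rfl))

/-- Six points, four of them on a horocycle. -/
theorem four_on {P : Finset ℍ} (hP : #P = 6) {H : Set ℍ} (hH : IsHorocycle H)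
    (h4 : cnt P H = 4) : 11 ≤ h P := by
  classical
  obtain ⟨Q, hQ, hc, hle⟩ := exists_move P hH
  refine le_trans ?_ hle
  have hA : #(onLine Q) = 4 := by rw [card_onLine, hc, h4]
  have h2 : #(Q.filter (fun z => ¬ z ∈ hline 1)) = 2 := by
    have h3 := card_filter_add_card_filter_not (s := Q) (fun z : ℍ => z ∈ hline 1)
    have h5 : #(Q.filter (fun z => z ∈ hline 1)) = 4 := by
      rw [← h4, ← hc]
      unfold cnt
      congr
    omega
  obtain ⟨p, q, hpq, hpq'⟩ := card_eq_two.1 h2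
  have hp : p ∈ Q.filter (fun z => ¬ z ∈ hline 1) := by rw [hpq']; simp
  have hq : q ∈ Q.filter (fun z => ¬ z ∈ hline 1) := by rw [hpq']; simp
  rw [mem_filter] at hp hq
  exact four_two hA hp.2 hq.2 hpq hp.1 hq.1 (fun a ha => mem_onLine.1 ha)

end Pool.Agent.HoroSix
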