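import Pool.Agent.HoroSmall.Basic

/-!
# Sets all of whose determined horocycles contain an odd number of points
-/

set_option autoImplicit false

open Finset UpperHalfPlane

namespace Pool.Agent.HoroSix

open Pool.Agent.Hhelper97.Horo Pool.Agent.HoroSmall

/-! ### ranks -/

/-- the number of elements with a smaller value -/
noncomputable def rk {α : Type*} (T : Finset α) (δ : α → ℝ) (i : α) : ℕ := #{j ∈ T | δ j < δ i}

theorem rk_lt {α : Type*} {T : Finset α} {δ : α → ℝ} {i j : α} (hi : i ∈ T) (h : δ i < δ j) :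
    rk T δ i < rk T δ j := by
  unfold rk
  apply card_lt_card
  rw [ssubset_iff_of_subset]
  · exact ⟨i, mem_filter.2 ⟨hi, h⟩, fun h1 => lt_irrefl _ (mem_filter.1 h1).2⟩
  · intro l hl
    rw [mem_filter] at hl ⊢
    exact ⟨hl.1, hl.2.trans h⟩

theorem rk_lt_card {α : Type*} {T : Finset α} {δ : α → ℝ} {i : α} (hi : i ∈ T) :
    rk T δ i < #T := by
  unfold rk
  apply card_lt_card
  rw [ssubset_iff_of_subset (filter_subset _ _)]
  exact ⟨i, hi, fun h1 => lt_irrefl _ (mem_filter.1 h1).2⟩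

theorem sum_rk {α : Type*} {T : Finset α} {δ : α → ℝ} (hδ : Set.InjOn δ T) (hT : Odd #T) :
    ∑ i ∈ T, (-1 : ℤ) ^ rk T δ i = 1 := by
  classical
  have inj : Set.InjOn (rk T δ) T := by
    intro i hi j hj hij
    rcases lt_trichotomy (δ i) (δ j) with h | h | h
    · exact absurd hij (rk_lt hi h).ne
    · exact hδ hi hj h
    · exact absurd hij (rk_lt hj h).ne'
  have im : T.image (rk T δ) = range #T := by
    apply eq_of_subset_of_card_le
    · intro r hr
      obtain ⟨i, hi, rfl⟩ := mem_image.1 hr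
      exact mem_range.2 (rk_lt_card hi)
    · rw [card_range, card_image_of_injOn inj]
  have h1 : ∑ i ∈ T, (-1 : ℤ) ^ rk T δ i = ∑ r ∈ T.image (rk T δ), (-1 : ℤ) ^ r :=
    (sum_image inj).symm
  rw [h1, im, neg_one_geom_sum, if_neg (Nat.not_even_iff_odd.2 hT)]

theorem sign_rk {α : Type*} [DecidableEq α] {T : Finset α} {δ : α → ℝ} {i : α}
    (h : ∀ j ∈ T.erase i, δ j ≠ δ i) :
    0 < (-1 : ℝ) ^ rk T δ i * ∏ j ∈ T.erase i, (δ j - δ i) := by
  have h1 : (-1 : ℝ) ^ rk T δ i = ∏ j ∈ T.erase i, (if δ j < δ i then (-1 : ℝ) else 1) := by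
    rw [prod_ite, prod_const, prod_const_one, mul_one]
    congr 1
    unfold rk
    congr 1
    ext j
    simp only [mem_filter, mem_erase]
    constructor
    · rintro ⟨h1, h2⟩
      exact ⟨⟨fun h3 => by rw [h3] at h2; exact lt_irrefl _ h2, h1⟩, h2⟩
    · rintro ⟨⟨_, h1⟩, h2⟩
      exact ⟨h1, h2⟩
  rw [h1, ← prod_mul_distrib]
  apply prod_pos
  intro j hj
  have h2 := h j hj
  split_ifs with h3
  · linarith
  · have h4 : δ i < δ j := lt_of_le_of_ne (not_lt.1 h3) h2.symm
    linarith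

/-! ### diameters -/

/-- The euclidean diameter of the horocycle with centre `t` through `p`. -/
noncomputable def f (p : ℍ) (t : ℝ) : ℝ := ((p.re - t) ^ 2 + p.im ^ 2) / p.im

/-- its derivative -/
noncomputable def d (p : ℍ) (t : ℝ) : ℝ := -2 * (p.re - t) / p.im

/-- the leading coefficient of the difference -/
noncomputable def cc (p q : ℍ) : ℝ := 1 / q.im - 1 / p.im

theorem f_pos (p : ℍ) (t : ℝ) : 0 < f p t := by
  have := p.im_pos
  unfold f
  positivity

theorem mem_circ_iff {z : ℍ} {x r : ℝ} : z ∈ circ x r ↔ f z x = 2 * r := by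
  rw [mem_circ, f, div_eq_iff z.im_pos.ne']

theorem f_diff (p : ℍ) (t : ℝ) : f p (t + 1) - f p (t - 1) = 2 * d p t := by
  have := p.im_pos
  unfold f d
  field_simp
  ring

theorem cc_ne {p q : ℍ} (h : p.im ≠ q.im) : cc p q ≠ 0 := by
  have := p.im_pos
  have := q.im_pos
  unfold cc
  intro h1
  apply h
  have h2 : 1 / q.im = 1 / p.im := by linarith
  rw [one_div, one_div] at h2
  exact (inv_injective h2).symm

/-- Points with different heights. -/
theorem f_sub {p q : ℍ} (hne : p.im ≠ q.im) : ∃ s s' : ℝ, s ≠ s' ∧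
    ∀ t : ℝ, f q t - f p t = cc p q * ((t - s) * (t - s')) := by
  have hp := p.im_pos
  have hq := q.im_pos
  set a : ℝ := p.im - q.im with ha
  have ha0 : a ≠ 0 := sub_ne_zero.2 hne
  set b : ℝ := q.im * p.re - p.im * q.re with hb
  set d : ℝ := p.im * q.im * ((p.re - q.re) ^ 2 + a ^ 2) with hd
  have hd0 : 0 < d := by
    have : 0 < a ^ 2 := by positivity
    positivity
  -- roots of `a t² + 2 b t + c`
  refine ⟨(-b - √d) / a, (-b + √d) / a, ?_, ?_⟩
  · intro h
    have h1 : -b - √d = -b + √d := by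
      field_simp at h
      exact h
    have h2 : 0 < √d := Real.sqrt_pos.2 hd0
    linarith
  · intro t
    have hsq : √d ^ 2 = d := Real.sq_sqrt hd0.le
    have key : (t - (-b - √d) / a) * (t - (-b + √d) / a) = ((a * t + b) ^ 2 - d) / a ^ 2 := by
      field_simp
      linear_combination (-1) * hsq
    rw [key]
    unfold f cc
    have e1 : (1 / q.im - 1 / p.im) = a / (p.im * q.im) := by
      rw [ha]; field_simp
    rw [e1]
    rw [eq_comm]
    rw [hd, hb, ha] at *
    field_simp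
    ring

open Classical in
/-- the centre of a circle -/
noncomputable def ctr (H : Set ℍ) : ℝ := if h : ∃ x r, 0 < r ∧ H = circ x r then h.choose else 0

theorem ctr_circ {x r : ℝ} (hr : 0 < r) : ctr (circ x r) = x := by
  have h : ∃ x' r', 0 < r' ∧ circ x r = circ x' r' := ⟨x, r, hr, rfl⟩
  unfold ctr
  rw [dif_pos h]
  obtain ⟨r', hr', h1⟩ := h.choose_spec
  exact (circ_inj hr hr' h1).1.symm

open Classical in
/-- the other horocycles through two points -/
noncomputable def oth (Q : Finset ℍ) (H : Set ℍ) (i j : ℍ) : Finset (Set ℍ) :=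
  {K ∈ det Q | (i ∈ K ∧ j ∈ K) ∧ K ≠ H}

theorem oth_prod {Q : Finset ℍ} {i j : ℍ} (hi : i ∈ Q) (hj : j ∈ Q) (hij : i.im ≠ j.im)
    {s r : ℝ} (hr : 0 < r) (hiH : i ∈ circ s r) :
    (j ∉ circ s r → f j s - f i s = cc i j * ∏ K ∈ oth Q (circ s r) i j, (s - ctr K)) ∧
    (j ∈ circ s r → d j s - d i s = cc i j * ∏ K ∈ oth Q (circ s r) i j, (s - ctr K)) := by
  classical
  have hne : i ≠ j := fun h => hij (by rw [h])
  obtain ⟨s₁, s₂, h12, hf⟩ := f_sub hij
  have r1 : 0 < f i s₁ / 2 := by have := f_pos i s₁; linarith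
  have r2 : 0 < f i s₂ / 2 := by have := f_pos i s₂; linarith
  have i1 : i ∈ circ s₁ (f i s₁ / 2) := by rw [mem_circ_iff]; ring
  have i2 : i ∈ circ s₂ (f i s₂ / 2) := by rw [mem_circ_iff]; ring
  have j1 : j ∈ circ s₁ (f i s₁ / 2) := by
    rw [mem_circ_iff]
    have := hf s₁
    rw [sub_self, zero_mul, mul_zero] at this
    linarith
  have j2 : j ∈ circ s₂ (f i s₂ / 2) := by
    rw [mem_circ_iff]
    have := hf s₂
    rw [sub_self, mul_zero, mul_zero] at this
    linarith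
  have hK : circ s₁ (f i s₁ / 2) ≠ circ s₂ (f i s₂ / 2) := fun h => h12 (circ_inj r1 r2 h).1
  have m1 : circ s₁ (f i s₁ / 2) ∈ det Q :=
    mem_det.2 ⟨Or.inr ⟨_, _, r1, rfl⟩, i, hi, j, hj, hne, i1, j1⟩
  have m2 : circ s₂ (f i s₂ / 2) ∈ det Q :=
    mem_det.2 ⟨Or.inr ⟨_, _, r2, rfl⟩, i, hi, j, hj, hne, i2, j2⟩
  have hfil : {K ∈ det Q | i ∈ K ∧ j ∈ K} = {circ s₁ (f i s₁ / 2), circ s₂ (f i s₂ / 2)} := by
    symm
    apply eq_of_subset_of_card_le
    · intro K hK
      rw [mem_insert, mem_singleton] at hK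
      rcases hK with rfl | rfl
      · exact mem_filter.2 ⟨m1, i1, j1⟩
      · exact mem_filter.2 ⟨m2, i2, j2⟩
    · rw [card_pair hK]
      exact (card_through hi hj hne).le
  have hoth : oth Q (circ s r) i j =
      ({circ s₁ (f i s₁ / 2), circ s₂ (f i s₂ / 2)} : Finset (Set ℍ)).erase (circ s r) := by
    rw [← hfil]
    unfold oth
    ext K
    simp only [mem_filter, mem_erase]
    tauto
  rw [hoth]
  constructor
  · intro hjH
    rw [erase_eq_of_notMem, prod_pair hK, ctr_circ r1, ctr_circ r2, hf s]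
    rw [mem_insert, mem_singleton, not_or]
    exact ⟨fun h => hjH (by rw [h]; exact j1), fun h => hjH (by rw [h]; exact j2)⟩
  · intro hjH
    have hmem : circ s r ∈ ({circ s₁ (f i s₁ / 2), circ s₂ (f i s₂ / 2)} : Finset (Set ℍ)) := by
      rw [← hfil]
      exact mem_filter.2 ⟨mem_det.2 ⟨Or.inr ⟨_, _, hr, rfl⟩, i, hi, j, hj, hne, hiH, hjH⟩,
        hiH, hjH⟩
    have e1 := hf (s + 1)
    have e2 := hf (s - 1)
    have e3 := f_diff i s
    have e4 := f_diff j s
    rw [mem_insert, mem_singleton] at hmem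
    rcases hmem with h | h
    · have hs := (circ_inj hr r1 h).1
      rw [h, erase_insert (by rwa [mem_singleton]), prod_singleton, ctr_circ r2]
      subst hs
      linear_combination (1 / 2) * e1 - (1 / 2) * e2 + (1 / 2) * e3 - (1 / 2) * e4
    · have hs := (circ_inj hr r2 h).1
      rw [h, pair_comm, erase_insert (by rw [mem_singleton]; exact hK.symm), prod_singleton,
        ctr_circ r1]
      subst hs
      linear_combination (1 / 2) * e1 - (1 / 2) * e2 + (1 / 2) * e3 - (1 / 2) * e4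

/-- the product of the leading coefficients -/
noncomputable def sg (Q : Finset ℍ) (i : ℍ) : ℝ := by
  classical
  exact ∏ j ∈ Q.erase i, cc i j

theorem sg_ne {Q : Finset ℍ} (hQ : Set.InjOn UpperHalfPlane.im Q) {i : ℍ} (hi : i ∈ Q) :
    sg Q i ≠ 0 := by
  classical
  unfold sg
  rw [prod_ne_zero_iff]
  intro j hj
  rw [mem_erase] at hj
  exact cc_ne fun h => hj.1 (hQ hi hj.2 h).symm

/-- the sign -/
noncomputable def ee (Q : Finset ℍ) (i : ℍ) : ℤ := by
  classical
  exact if 0 < sg Q i then 1 else -1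

theorem ee_sq (Q : Finset ℍ) (i : ℍ) : ee Q i * ee Q i = 1 := by
  unfold ee
  split_ifs <;> norm_num

/-- the other horocycles through one point -/
theorem sg_prod {Q : Finset ℍ} [DecidableEq ℍ] (H : Set ℍ) (s : ℝ) {i : ℍ}
    (hodd : ∀ K ∈ det Q, Odd (cnt Q K))
    (hctr : ∀ K ∈ det Q, i ∈ K → K ≠ H → s ≠ ctr K) (hi : i ∈ Q) :
    ∃ W : ℝ, 0 < W ∧
    ∏ j ∈ Q.erase i, (cc i j * ∏ K ∈ oth Q H i j, (s - ctr K)) = sg Q i * W := by
  classical
  refine ⟨∏ K ∈ {K ∈ det Q | i ∈ K ∧ K ≠ H}, (s - ctr K) ^ (cnt Q K - 1), ?_, ?_⟩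
  · apply prod_pos
    intro K hK
    rw [mem_filter] at hK
    have h1 := hodd K hK.1
    have h2 : Even (cnt Q K - 1) := by
      obtain ⟨k, hk⟩ := h1
      exact ⟨k, by omega⟩
    exact h2.pow_pos (sub_ne_zero.2 (hctr K hK.1 hK.2.1 hK.2.2))
  · rw [prod_mul_distrib]
    congr 1
    · unfold sg
      apply prod_congr _ (fun _ _ => rfl)
      ext j
      simp only [mem_erase]
    · rw [prod_comm' (t' := {K ∈ det Q | i ∈ K ∧ K ≠ H})
        (s' := fun K => ({j ∈ Q | j ∈ K} : Finset ℍ).erase i)]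
      · apply prod_congr rfl
        intro K hK
        rw [mem_filter] at hK
        rw [prod_const, card_erase_of_mem (mem_filter.2 ⟨hi, hK.2.1⟩)]
        rfl
      · intro j K
        unfold oth
        simp only [mem_filter, mem_erase]
        tauto

theorem sum_ee {Q : Finset ℍ} (hQ : Set.InjOn UpperHalfPlane.im Q)
    (hodd : ∀ K ∈ det Q, Odd (cnt Q K)) {H : Set ℍ} (hH : H ∈ det Q) [DecidablePred (· ∈ H)] :
    (∑ i ∈ Q with i ∈ H, ee Q i) ^ 2 = 1 := by
  classical
  set T : Finset ℍ := {i ∈ Q | i ∈ H} with hT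
  have hcT : #T = cnt Q H := by
    rw [hT]; unfold cnt; congr
  obtain ⟨hHh, p, hp, q, hq, hpq, hpH, hqH⟩ := mem_det.1 hH
  -- H is a circle
  obtain ⟨s, r, hr, rfl⟩ : ∃ s r, 0 < r ∧ H = circ s r := by
    rcases hHh with ⟨c, hc, rfl⟩ | ⟨x, r, hr, rfl⟩
    · exfalso
      apply hpq
      rw [mem_hline] at hpH hqH
      exact hQ hp hq (hpH.trans hqH.symm)
    · exact ⟨x, r, hr, rfl⟩
  set V : ℝ := ∏ j ∈ Q \ T, (f j s - 2 * r) with hV
  have key : ∀ i ∈ T, ∃ W : ℝ, 0 < W ∧ sg Q i * W = (∏ j ∈ T.erase i, (d j s - d i s)) * V := by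
    intro i hi
    have hi' := mem_filter.1 hi
    obtain ⟨W, hW, h1⟩ := sg_prod (Q := Q) (circ s r) s (i := i) hodd (by
      intro K hK hiK hne hs
      apply hne
      obtain ⟨hKh, p', hp', q', hq', hpq', hpK, hqK⟩ := mem_det.1 hK
      rcases hKh with ⟨c, hc, rfl⟩ | ⟨x, r', hr', rfl⟩
      · exfalso
        apply hpq'
        rw [mem_hline] at hpK hqK
        exact hQ hp' hq' (hpK.trans hqK.symm)
      · rw [ctr_circ hr'] at hs
        subst hs
        have h2 := mem_circ_iff.1 hiK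
        have h3 := mem_circ_iff.1 hi'.2
        have : r' = r := by linarith
        rw [this]) hi'.1
    refine ⟨W, hW, ?_⟩
    rw [← h1]
    have h2 : Q.erase i = (T.erase i) ∪ (Q \ T) := by
      ext j
      simp only [mem_erase, mem_union, mem_sdiff]
      constructor
      · rintro ⟨h3, h4⟩
        by_cases h5 : j ∈ T
        · exact Or.inl ⟨h3, h5⟩
        · exact Or.inr ⟨h4, h5⟩
      · rintro (⟨h3, h4⟩ | ⟨h3, h4⟩)
        · exact ⟨h3, (mem_filter.1 h4).1⟩
        · exact ⟨fun h5 => h4 (by rw [h5]; exact hi), h3⟩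
    have h3 : Disjoint (T.erase i) (Q \ T) := by
      rw [disjoint_left]
      intro j h4 h5
      exact (mem_sdiff.1 h5).2 (mem_of_mem_erase h4)
    rw [h2, prod_union h3]
    congr 1
    · apply prod_congr rfl
      intro j hj
      rw [mem_erase] at hj
      have hj' := mem_filter.1 hj.2
      exact ((oth_prod hi'.1 hj'.1 (fun h => hj.1 (hQ hi'.1 hj'.1 h).symm) hr hi'.2).2
        hj'.2).symm
    · rw [hV]
      apply prod_congr rfl
      intro j hj
      rw [mem_sdiff] at hj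
      have hjH : j ∉ circ s r := fun h => hj.2 (mem_filter.2 ⟨hj.1, h⟩)
      rw [← (oth_prod hi'.1 hj.1 (fun h => hjH (by rw [← hQ hi'.1 hj.1 h]; exact hi'.2))
        hr hi'.2).1 hjH, mem_circ_iff.1 hi'.2]
  have hV0 : V ≠ 0 := by
    intro h0
    obtain ⟨W, hW, h1⟩ := key p (mem_filter.2 ⟨hp, hpH⟩)
    rw [h0, mul_zero] at h1
    rcases mul_eq_zero.1 h1 with h2 | h2
    · exact sg_ne hQ hp h2
    · exact hW.ne' h2
  have hne : ∀ i ∈ T, ∀ j ∈ T.erase i, d j s ≠ d i s := by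
    intro i hi j hj h0
    obtain ⟨W, hW, h1⟩ := key i hi
    rw [prod_eq_zero hj (sub_eq_zero.2 h0), zero_mul] at h1
    rcases mul_eq_zero.1 h1 with h2 | h2
    · exact sg_ne hQ (mem_filter.1 hi).1 h2
    · exact hW.ne' h2
  have hinj : Set.InjOn (fun i => d i s) T := by
    intro i hi j hj hij
    by_contra hne'
    exact hne i hi j (mem_erase.2 ⟨fun h => hne' h.symm, hj⟩) hij.symm
  have hsum := sum_rk hinj (by rw [hcT]; exact hodd _ hH)
  have hsign : ∀ i ∈ T, 0 < (-1 : ℝ) ^ rk T (fun i => d i s) i * (sg Q i * V) := by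
    intro i hi
    obtain ⟨W, hW, h1⟩ := key i hi
    have h2 := sign_rk (hne i hi)
    have h3 : 0 < V ^ 2 := by positivity
    have h4 : 0 < ((-1 : ℝ) ^ rk T (fun i => d i s) i * (sg Q i * V)) * W := by
      have : ((-1 : ℝ) ^ rk T (fun i => d i s) i * (sg Q i * V)) * W =
          ((-1 : ℝ) ^ rk T (fun i => d i s) i * ∏ j ∈ T.erase i, (d j s - d i s)) * V ^ 2 := by
        linear_combination ((-1 : ℝ) ^ rk T (fun i => d i s) i * V) * h1
      rw [this]
      positivity
    exact (pos_iff_pos_of_mul_pos h4).2 hW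
  rcases lt_or_gt_of_ne hV0 with hV1 | hV1
  · have h5 : ∀ i ∈ T, ee Q i = -(-1) ^ rk T (fun i => d i s) i := by
      intro i hi
      have h6 := hsign i hi
      unfold ee
      rcases Nat.even_or_odd (rk T (fun i => d i s) i) with h7 | h7
      · rw [h7.neg_one_pow] at h6 ⊢
        rw [one_mul] at h6
        rw [if_neg]
        intro h8
        exact absurd h6 (not_lt.2 (mul_nonpos_of_nonneg_of_nonpos h8.le hV1.le))
      · rw [h7.neg_one_pow] at h6 ⊢
        rw [if_pos]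
        · norm_num
        · by_contra h8
          have := mul_nonneg_of_nonpos_of_nonpos (not_lt.1 h8) hV1.le
          linarith
    rw [sum_congr rfl h5, sum_neg_distrib, hsum]
    norm_num
  · have h5 : ∀ i ∈ T, ee Q i = (-1) ^ rk T (fun i => d i s) i := by
      intro i hi
      have h6 := hsign i hi
      unfold ee
      rcases Nat.even_or_odd (rk T (fun i => d i s) i) with h7 | h7
      · rw [h7.neg_one_pow] at h6 ⊢
        rw [if_pos]
        by_contra h8
        have := mul_nonpos_of_nonpos_of_nonneg (not_lt.1 h8) hV1.le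
        linarith
      · rw [h7.neg_one_pow] at h6 ⊢
        rw [if_neg]
        intro h8
        have := mul_pos h8 hV1
        linarith
    rw [sum_congr rfl h5, hsum]
    norm_num

theorem sq_expand {α : Type*} [DecidableEq α] (T : Finset α) (e : α → ℤ)
    (he : ∀ i, e i * e i = 1) :
    (∑ i ∈ T, e i) ^ 2 = #T + ∑ x ∈ T.offDiag, e x.1 * e x.2 := by
  rw [sq, sum_mul_sum, ← sum_product', ← diag_union_offDiag, sum_union (disjoint_diag_offDiag T),
    sum_diag]
  congr 1
  rw [sum_congr rfl (fun i _ => he i), sum_const]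
  simp

/-- Sets all of whose determined horocycles contain an odd number of points. -/
theorem odd_bound {Q : Finset ℍ} (hQ : Set.InjOn UpperHalfPlane.im Q)
    (hodd : ∀ K ∈ det Q, Odd (cnt Q K)) :
    ∑ H ∈ det Q, cnt Q H ≤ #(det Q) + 2 * #Q := by
  classical
  have h1 : ∑ H ∈ det Q, (∑ i ∈ Q with i ∈ H, ee Q i) ^ 2 = #(det Q) := by
    rw [sum_congr rfl (fun H hH => sum_ee hQ hodd hH), sum_const]
    simp
  have h2 : ∑ H ∈ det Q, (∑ i ∈ Q with i ∈ H, ee Q i) ^ 2 = ∑ H ∈ det Q, ((cnt Q H : ℤ) +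
      ∑ x ∈ ({i ∈ Q | i ∈ H} : Finset ℍ).offDiag, ee Q x.1 * ee Q x.2) := by
    apply sum_congr rfl
    intro H _
    rw [sq_expand _ _ (ee_sq Q)]
    congr 2
  have h3 : ∑ H ∈ det Q, ∑ x ∈ ({i ∈ Q | i ∈ H} : Finset ℍ).offDiag, ee Q x.1 * ee Q x.2 =
      ∑ x ∈ Q.offDiag, ∑ H ∈ det Q with x.1 ∈ H ∧ x.2 ∈ H, ee Q x.1 * ee Q x.2 := by
    apply sum_comm'
    intro H x
    simp only [mem_offDiag, mem_filter]
    tauto
  have h4 : ∑ x ∈ Q.offDiag, ∑ H ∈ det Q with x.1 ∈ H ∧ x.2 ∈ H, ee Q x.1 * ee Q x.2 =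
      2 * ∑ x ∈ Q.offDiag, ee Q x.1 * ee Q x.2 := by
    rw [mul_sum]
    apply sum_congr rfl
    intro x hx
    rw [mem_offDiag] at hx
    rw [sum_const, card_through hx.1 hx.2.1 hx.2.2]
    simp
  have h5 := sq_expand Q (ee Q) (ee_sq Q)
  have h6 : 0 ≤ (∑ i ∈ Q, ee Q i) ^ 2 := sq_nonneg _
  rw [h2, sum_add_distrib, h3, h4] at h1
  have h7 : ((∑ H ∈ det Q, cnt Q H : ℕ) : ℤ) = ∑ H ∈ det Q, (cnt Q H : ℤ) := by push_cast; rfl
  have h8 : ((∑ H ∈ det Q, cnt Q H : ℕ) : ℤ) ≤ #(det Q) + 2 * #Q := by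
    rw [h7]
    linarith
  exact_mod_cast h8

end Pool.Agent.HoroSix
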