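import Pool.Agent.HoroSix.Four
import Pool.Agent.HoroSix.Parity

/-!
# Sets in general position with respect to heights, and the lower bound for six points
-/

set_option autoImplicit false

open Finset UpperHalfPlane

namespace Pool.Agent.HoroSix

open Pool.Agent.Hhelper97.Horo Pool.Agent.HoroSmall

/-- Every finite set can be moved so that different points have different heights. -/
theorem exists_generic (P : Finset ℍ) [DecidableEq ℍ] : ∃ φ : ℍ → ℍ, Function.Bijective φ ∧
    (∀ K, IsHorocycle K → IsHorocycle (φ ⁻¹' K)) ∧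
    Set.InjOn UpperHalfPlane.im (P.image φ : Finset ℍ) := by
  classical
  obtain ⟨x, hx⟩ := Infinite.exists_notMem_finset ((det P).image ctr)
  refine ⟨inv x 1 one_pos, inv_bij x 1 one_pos, inv_pre x 1 one_pos, ?_⟩
  have key : ∀ z : ℍ, z ∈ circ x (1 / (inv x 1 one_pos z).im) := by
    intro z
    have h1 := nm_pos x z
    have h2 := z.im_pos
    have h3 : (z.re - x) ^ 2 + z.im ^ 2 = nm x z := rfl
    rw [mem_circ, h3]
    simp only [inv, mkP_im]
    field_simp
  intro z hz w hw hzw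
  rw [mem_coe, mem_image] at hz hw
  obtain ⟨p, hp, rfl⟩ := hz
  obtain ⟨q, hq, rfl⟩ := hw
  by_contra hne
  have hpq : p ≠ q := fun h => hne (by rw [h])
  have k1 := key p
  have k2 := key q
  rw [← hzw] at k2
  have hr : 0 < 1 / (inv x 1 one_pos p).im := one_div_pos.2 (UpperHalfPlane.im_pos _)
  apply hx
  rw [mem_image]
  exact ⟨_, mem_det.2 ⟨Or.inr ⟨_, _, hr, rfl⟩, p, hp, q, hq, hpq, k1, k2⟩, ctr_circ hr⟩

theorem six_three' {Q : Finset ℍ} (hQ : #Q = 6) (hinj : Set.InjOn UpperHalfPlane.im Q)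
    (h3 : ∀ H ∈ det Q, cnt Q H ≤ 3) : 11 ≤ h Q := by
  classical
  by_contra hcon
  push Not at hcon
  have h1 := sum_formula Q
  rw [hQ] at h1
  have h2 : ∀ H ∈ det Q, cnt Q H * (cnt Q H - 1) ≤ 6 := by
    intro H hH
    have := h3 H hH
    have h4 := two_le_cnt hH
    have h5 : cnt Q H = 2 ∨ cnt Q H = 3 := by omega
    rcases h5 with h5 | h5 <;> rw [h5]
    decide
  have h4 : #(det Q) = 10 := by
    have h5 := sum_le_card_nsmul _ _ _ h2
    rw [h1, smul_eq_mul] at h5
    rw [← card_det] at hcon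
    omega
  have h6 : ∀ H ∈ det Q, cnt Q H = 3 := by
    intro H hH
    by_contra h7
    have h8 : cnt Q H = 2 := by
      have := h3 H hH
      have := two_le_cnt hH
      omega
    have h9 : ∑ H ∈ det Q, cnt Q H * (cnt Q H - 1) < ∑ H ∈ det Q, 6 := by
      apply sum_lt_sum h2
      exact ⟨H, hH, by rw [h8]; norm_num⟩
    rw [h1, sum_const, h4] at h9
    norm_num at h9
  have h7 := odd_bound hinj (fun H hH => by rw [h6 H hH]; exact ⟨1, rfl⟩)
  rw [sum_congr rfl h6, sum_const, h4, hQ] at h7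
  norm_num at h7

/-- at most three points on every horocycle -/
theorem low6 {P : Finset ℍ} (hP : #P = 6) : 11 ≤ h P := by
  classical
  obtain ⟨φ, hφ, hpre, hinj⟩ := exists_generic P
  refine le_trans ?_ (h_image_le hφ.surjective hpre P)
  have hQ : #(P.image φ) = 6 := by rw [card_image_of_injective _ hφ.injective, hP]
  by_cases h3 : ∀ H ∈ det (P.image φ), cnt (P.image φ) H ≤ 3
  · exact six_three' hQ hinj h3
  · push Not at h3
    obtain ⟨H, hH, h4⟩ := h3
    have hHh := (mem_det.1 hH).1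
    have hle : cnt (P.image φ) H ≤ 6 := by
      rw [← hQ]; exact card_filter_le _ _
    have h5 : cnt (P.image φ) H = 4 ∨ cnt (P.image φ) H = 5 ∨ cnt (P.image φ) H = 6 := by omega
    have c5 : (5 : ℕ).choose 2 = 10 := rfl
    have c6 : (6 : ℕ).choose 2 = 15 := rfl
    rcases h5 with h5 | h5 | h5
    · exact four_on hQ hHh h5
    · have h6 := lower_one (P.image φ) hHh (by omega) (by omega)
      rw [h5, c5] at h6
      omega
    · have h6 := lower_zero (P.image φ) hHh (by omega)
      rw [h5, c6] at h6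
      omega

theorem det_image {P : Finset ℍ} {φ : ℍ → ℍ} (hφ : Function.Bijective φ)
    (hpre : ∀ K, IsHorocycle K → IsHorocycle (φ ⁻¹' K)) [DecidableEq ℍ] {K : Set ℍ}
    (hK : K ∈ det (P.image φ)) : φ ⁻¹' K ∈ det P ∧ cnt (P.image φ) K = cnt P (φ ⁻¹' K) := by
  classical
  obtain ⟨h1, p, hp, q, hq, hpq, hpK, hqK⟩ := mem_det.1 hK
  obtain ⟨p', hp', rfl⟩ := mem_image.1 hp
  obtain ⟨q', hq', rfl⟩ := mem_image.1 hq
  refine ⟨mem_det.2 ⟨hpre K h1, p', hp', q', hq', fun h => hpq (by rw [h]), hpK, hqK⟩, ?_⟩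
  unfold cnt
  rw [← card_image_of_injective ({p ∈ P | p ∈ φ ⁻¹' K} : Finset ℍ) hφ.injective]
  congr 1
  ext z
  simp only [mem_filter, mem_image, Set.mem_preimage]
  constructor
  · rintro ⟨⟨w, hw, rfl⟩, h2⟩
    exact ⟨w, ⟨hw, h2⟩, rfl⟩
  · rintro ⟨w, hw, rfl⟩
    exact ⟨⟨w, hw.1, rfl⟩, hw.2⟩

/-- Every finite set of at least two points of the hyperbolic plane determines a horocycle
containing an even number of its points. -/
theorem exists_even {P : Finset ℍ} (hP : 2 ≤ #P) :
    ∃ H ∈ determined P, Even ((P : Set ℍ) ∩ H).ncard := by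
  classical
  by_contra hcon
  push Not at hcon
  have hodd0 : ∀ H ∈ det P, Odd (cnt P H) := by
    intro H hH
    rw [← ncard_eq_cnt, ← Nat.not_even_iff_odd]
    exact hcon H (mem_det.1 hH)
  obtain ⟨φ, hφ, hpre, hinj⟩ := exists_generic P
  have hQ : #(P.image φ) = #P := card_image_of_injective _ hφ.injective
  set Q := P.image φ with hQdef
  have hodd : ∀ K ∈ det Q, Odd (cnt Q K) := by
    intro K hK
    obtain ⟨h1, h2⟩ := det_image hφ hpre hK
    rw [h2]
    exact hodd0 _ h1
  have h1 := odd_bound hinj hodd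
  have h2 := sum_formula Q
  -- a determined horocycle with the largest number of points
  obtain ⟨p, hp, q, hq, hpq⟩ := one_lt_card.1 (by omega : 1 < #Q)
  obtain ⟨K₁, K₂, k1, k2, hne, p1, q1, p2, q2, _⟩ := two_through hpq
  have hdne : (det Q).Nonempty := ⟨K₁, mem_det.2 ⟨k1, p, hp, q, hq, hpq, p1, q1⟩⟩
  obtain ⟨H, hH, hmax⟩ := exists_max_image (det Q) (cnt Q) hdne
  have hle : cnt Q H ≤ #Q := card_filter_le _ _
  have hH2 := two_le_cnt hH
  have hHh := (mem_det.1 hH).1
  -- it does not contain all points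
  have hlt : cnt Q H < #Q := by
    by_contra h3
    have h4 : ({z ∈ Q | z ∈ H} : Finset ℍ) = Q := by
      apply eq_of_subset_of_card_le (filter_subset _ _)
      exact not_lt.1 h3
    have hall : ∀ z ∈ Q, z ∈ H := by
      intro z hz
      rw [← h4] at hz
      exact (mem_filter.1 hz).2
    -- the other horocycle through p and q
    obtain ⟨K, hK, pK, qK, hKH⟩ : ∃ K, IsHorocycle K ∧ p ∈ K ∧ q ∈ K ∧ K ≠ H := by
      by_cases h5 : K₁ = H
      · exact ⟨K₂, k2, p2, q2, fun h => hne (h5.trans h.symm)⟩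
      · exact ⟨K₁, k1, p1, q1, h5⟩
    have h5 : ({z ∈ Q | z ∈ K} : Finset ℍ) = {p, q} := by
      ext z
      rw [mem_filter, mem_insert, mem_singleton]
      constructor
      · rintro ⟨hz, hzK⟩
        by_contra h6
        rw [not_or] at h6
        exact hKH (three_unique hpq (Ne.symm h6.1) (Ne.symm h6.2) hK hHh pK qK hzK
          (hall p hp) (hall q hq) (hall z hz))
      · rintro (rfl | rfl)
        · exact ⟨hp, pK⟩
        · exact ⟨hq, qK⟩
    have h6 : cnt Q K = 2 := by
      unfold cnt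
      rw [h5, card_pair hpq]
    have h7 := hodd K (mem_det.2 ⟨hK, p, hp, q, hq, hpq, pK, qK⟩)
    rw [h6] at h7
    exact absurd h7 (by decide)
  have h3 := lower_one Q hHh hH2 hlt
  rw [← card_det] at h3
  -- the number of horocycles
  have h4 : ∀ K ∈ det Q, 3 ≤ cnt Q K := by
    intro K hK
    have h5 := two_le_cnt hK
    have h6 := hodd K hK
    rcases Nat.lt_or_ge 2 (cnt Q K) with h7 | h7
    · exact h7
    · have : cnt Q K = 2 := by omega
      rw [this] at h6
      exact absurd h6 (by decide)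
  have h5 : ∑ K ∈ det Q, (cnt Q K - 1) + #(det Q) = ∑ K ∈ det Q, cnt Q K := by
    rw [card_eq_sum_ones, ← sum_add_distrib]
    apply sum_congr rfl
    intro K hK
    have := h4 K hK
    omega
  have h6 : ∑ K ∈ det Q, (cnt Q K - 1) ≤ 2 * #Q := by omega
  have h7 : ∑ K ∈ det Q, cnt Q K * (cnt Q K - 1) ≤ cnt Q H * ∑ K ∈ det Q, (cnt Q K - 1) := by
    rw [mul_sum]
    apply sum_le_sum
    intro K hK
    exact Nat.mul_le_mul_right _ (hmax K hK)
  have h8 : 2 * #(det Q) ≤ ∑ K ∈ det Q, (cnt Q K - 1) := by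
    have := card_nsmul_le_sum (det Q) (fun K => cnt Q K - 1) 2 (fun K hK => by
      have := h4 K hK
      omega)
    rw [smul_eq_mul] at this
    linarith
  have h9 : 2 * (#Q * (#Q - 1)) ≤ cnt Q H * (2 * #Q) := by
    rw [← h2]
    exact h7.trans (Nat.mul_le_mul_left _ h6)
  have hq0 : 0 < #Q := by omega
  have h10 : #Q - 1 ≤ cnt Q H := by
    have h11 : (2 * #Q) * (#Q - 1) ≤ (2 * #Q) * cnt Q H := by
      calc (2 * #Q) * (#Q - 1) = 2 * (#Q * (#Q - 1)) := by ring
        _ ≤ cnt Q H * (2 * #Q) := h9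
        _ = (2 * #Q) * cnt Q H := by ring
    exact Nat.le_of_mul_le_mul_left h11 (by omega)
  -- contradiction
  have h12 : cnt Q H = #Q - 1 := by omega
  rw [h12] at h3
  have h13 : #(det Q) ≤ #Q := by omega
  obtain ⟨N, hN⟩ : ∃ N, #Q = N + 2 := ⟨#Q - 2, by omega⟩
  rw [hN] at h3 h13
  have h14 : (N + 2 - 1).choose 2 = N * (N + 1) / 2 := by
    rw [show N + 2 - 1 = N + 1 by omega, Nat.choose_two_right, Nat.add_sub_cancel, mul_comm]
  rw [h14] at h3
  have h15 : N ≤ N * (N + 1) / 2 := by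
    rcases Nat.eq_zero_or_pos N with h | h
    · rw [h]
    · rw [Nat.le_div_iff_mul_le two_pos]
      exact Nat.mul_le_mul_left _ (by omega)
  omega

end Pool.Agent.HoroSix
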