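import Pool.Agent.HoroSix.Main

/-!
# Horocycles with exactly two points
-/

set_option autoImplicit false

open Finset UpperHalfPlane

namespace Pool.Agent.HoroSix

open Pool.Agent.Hhelper97.Horo Pool.Agent.HoroSmall

open Classical in
/-- the other factor -/
noncomputable def ww (Q : Finset ℍ) (H : Set ℍ) (s : ℝ) (i : ℍ) : ℝ :=
  ∏ K ∈ det Q with i ∈ K ∧ K ≠ H, (s - ctr K) ^ (cnt Q K - 1)

theorem ww_prod {Q : Finset ℍ} [DecidableEq ℍ] (H : Set ℍ) (s : ℝ) {i : ℍ} (hi : i ∈ Q) :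
    ∏ j ∈ Q.erase i, (cc i j * ∏ K ∈ oth Q H i j, (s - ctr K)) = sg Q i * ww Q H s i := by
  classical
  rw [prod_mul_distrib]
  congr 1
  · unfold sg
    apply prod_congr _ (fun _ _ => rfl)
    ext j
    simp only [mem_erase]
  · unfold ww
    rw [prod_comm' (t' := {K ∈ det Q | i ∈ K ∧ K ≠ H})
      (s' := fun K => ({j ∈ Q | j ∈ K} : Finset ℍ).erase i)]
    · apply prod_congr rfl
      intro K hK
      rw [mem_filter] at hK
      rw [prod_const, card_erase_of_mem (mem_filter.2 ⟨hi, hK.2.1⟩)]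
      rfl
    · intro j K
      unfold oth
      simp only [mem_filter, mem_erase]
      tauto

theorem ctr_ne {Q : Finset ℍ} (hQ : Set.InjOn UpperHalfPlane.im Q) {i : ℍ} {s r : ℝ}
    (hi : i ∈ circ s r) {K : Set ℍ} (hK : K ∈ det Q) (hiK : i ∈ K) (hne : K ≠ circ s r) :
    s ≠ ctr K := by
  intro hs
  apply hne
  obtain ⟨hKh, p', hp', q', hq', hpq', hpK, hqK⟩ := mem_det.1 hK
  rcases hKh with ⟨c, hc, rfl⟩ | ⟨x, r', hr', rfl⟩
  · exfalso
    apply hpq'
    rw [mem_hline] at hpK hqK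
    exact hQ hp' hq' (hpK.trans hqK.symm)
  · rw [ctr_circ hr'] at hs
    subst hs
    have h2 := mem_circ_iff.1 hiK
    have h3 := mem_circ_iff.1 hi
    have : r' = r := by linarith
    rw [this]

theorem ww_ne {Q : Finset ℍ} (hQ : Set.InjOn UpperHalfPlane.im Q) {i : ℍ} {s r : ℝ}
    (hi : i ∈ circ s r) : ww Q (circ s r) s i ≠ 0 := by
  classical
  unfold ww
  rw [prod_ne_zero_iff]
  intro K hK
  rw [mem_filter] at hK
  exact pow_ne_zero _ (sub_ne_zero.2 (ctr_ne hQ hi hK.1 hK.2.1 hK.2.2))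

theorem ww_pos {Q : Finset ℍ} (hQ : Set.InjOn UpperHalfPlane.im Q) {i : ℍ} {s r : ℝ}
    (hi : i ∈ circ s r) (hodd : ∀ K ∈ det Q, i ∈ K → Odd (cnt Q K)) :
    0 < ww Q (circ s r) s i := by
  classical
  unfold ww
  apply prod_pos
  intro K hK
  rw [mem_filter] at hK
  have h2 : Even (cnt Q K - 1) := by
    obtain ⟨k, hk⟩ := hodd K hK.1 hK.2.1
    exact ⟨k, by omega⟩
  exact h2.pow_pos (sub_ne_zero.2 (ctr_ne hQ hi hK.1 hK.2.1 hK.2.2))

/-- the sign at a horocycle -/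
noncomputable def xx (Q : Finset ℍ) (H : Set ℍ) (i : ℍ) : ℤ :=
  if 0 < sg Q i * ww Q H (ctr H) i then 1 else -1

theorem xx_sq (Q : Finset ℍ) (H : Set ℍ) (i : ℍ) : xx Q H i * xx Q H i = 1 := by
  unfold xx
  split_ifs <;> norm_num

theorem xx_mul (Q : Finset ℍ) (H : Set ℍ) (i j : ℍ) : -1 ≤ xx Q H i * xx Q H j := by
  unfold xx
  split_ifs <;> norm_num

theorem sum_rk_even {α : Type*} {T : Finset α} {δ : α → ℝ} (hδ : Set.InjOn δ T) :
    (∑ i ∈ T, (-1 : ℤ) ^ rk T δ i) ^ 2 = if Even #T then 0 else 1 := by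
  classical
  have inj : Set.InjOn (rk T δ) T := by
    intro i hi j hj hij
    rcases lt_trichotomy (δ i) (δ j) with h | h | h
    · exact absurd hij (rk_lt hi h).ne
    · exact hδ hi hj h
    · exact absurd hij (rk_lt hj h).ne'
  have im : T.image (rk T δ) = range #T := by
    apply eq_of_subset_of_card_le
    · intro r hr
      obtain ⟨i, hi, rfl⟩ := mem_image.1 hr
      exact mem_range.2 (rk_lt_card hi)
    · rw [card_range, card_image_of_injOn inj]
  have h1 : ∑ i ∈ T, (-1 : ℤ) ^ rk T δ i = ∑ r ∈ T.image (rk T δ), (-1 : ℤ) ^ r :=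
    (sum_image inj).symm
  rw [h1, im, neg_one_geom_sum]
  split_ifs <;> norm_num

theorem det_circ {Q : Finset ℍ} (hQ : Set.InjOn UpperHalfPlane.im Q) {H : Set ℍ}
    (hH : H ∈ det Q) : ∃ s r, 0 < r ∧ H = circ s r := by
  obtain ⟨hHh, p, hp, q, hq, hpq, hpH, hqH⟩ := mem_det.1 hH
  rcases hHh with ⟨c, hc, rfl⟩ | ⟨x, r, hr, rfl⟩
  · exfalso
    apply hpq
    rw [mem_hline] at hpH hqH
    exact hQ hp hq (hpH.trans hqH.symm)
  · exact ⟨x, r, hr, rfl⟩

theorem xx_odd {Q : Finset ℍ} (hQ : Set.InjOn UpperHalfPlane.im Q) {H : Set ℍ}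
    (hH : H ∈ det Q) {i : ℍ} (hi : i ∈ H) (hodd : ∀ K ∈ det Q, i ∈ K → Odd (cnt Q K)) :
    xx Q H i = ee Q i := by
  obtain ⟨s, r, hr, rfl⟩ := det_circ hQ hH
  have hW := ww_pos hQ hi hodd
  unfold xx ee
  rw [ctr_circ hr]
  simp only [mul_pos_iff_of_pos_right hW]

theorem sum_xx {Q : Finset ℍ} (hQ : Set.InjOn UpperHalfPlane.im Q) {H : Set ℍ}
    (hH : H ∈ det Q) [DecidablePred (· ∈ H)] :
    (∑ i ∈ Q with i ∈ H, xx Q H i) ^ 2 = if Even (cnt Q H) then 0 else 1 := by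
  classical
  set T : Finset ℍ := {i ∈ Q | i ∈ H} with hT
  have hcT : #T = cnt Q H := by
    rw [hT]; unfold cnt; congr
  obtain ⟨hHh, p, hp, q, hq, hpq, hpH, hqH⟩ := mem_det.1 hH
  obtain ⟨s, r, hr, rfl⟩ := det_circ hQ hH
  set V : ℝ := ∏ j ∈ Q \ T, (f j s - 2 * r) with hV
  have key : ∀ i ∈ T, sg Q i * ww Q (circ s r) s i = (∏ j ∈ T.erase i, (d j s - d i s)) * V := by
    intro i hi
    have hi' := mem_filter.1 hi
    rw [← ww_prod (circ s r) s hi'.1]
    have h2 : Q.erase i = (T.erase i) ∪ (Q \ T) := by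
      ext j
      simp only [mem_erase, mem_union, mem_sdiff]
      constructor
      · rintro ⟨h3, h4⟩
        by_cases h5 : j ∈ T
        · exact Or.inl ⟨h3, h5⟩
        · exact Or.inr ⟨h4, h5⟩
      · rintro (⟨h3, h4⟩ | ⟨h3, h4⟩)
        · exact ⟨h3, (mem_filter.1 h4).1⟩
        · exact ⟨fun h5 => h4 (by rw [h5]; exact hi), h3⟩
    have h3 : Disjoint (T.erase i) (Q \ T) := by
      rw [disjoint_left]
      intro j h4 h5
      exact (mem_sdiff.1 h5).2 (mem_of_mem_erase h4)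
    rw [h2, prod_union h3]
    congr 1
    · apply prod_congr rfl
      intro j hj
      rw [mem_erase] at hj
      have hj' := mem_filter.1 hj.2
      exact ((oth_prod hi'.1 hj'.1 (fun h => hj.1 (hQ hi'.1 hj'.1 h).symm) hr hi'.2).2
        hj'.2).symm
    · rw [hV]
      apply prod_congr rfl
      intro j hj
      rw [mem_sdiff] at hj
      have hjH : j ∉ circ s r := fun h => hj.2 (mem_filter.2 ⟨hj.1, h⟩)
      rw [← (oth_prod hi'.1 hj.1 (fun h => hjH (by rw [← hQ hi'.1 hj.1 h]; exact hi'.2))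
        hr hi'.2).1 hjH, mem_circ_iff.1 hi'.2]
  have hSW : ∀ i ∈ T, sg Q i * ww Q (circ s r) s i ≠ 0 := by
    intro i hi
    have hi' := mem_filter.1 hi
    exact mul_ne_zero (sg_ne hQ hi'.1) (ww_ne hQ hi'.2)
  have hV0 : V ≠ 0 := by
    intro h0
    have h1 := key p (mem_filter.2 ⟨hp, hpH⟩)
    rw [h0, mul_zero] at h1
    exact hSW p (mem_filter.2 ⟨hp, hpH⟩) h1
  have hne : ∀ i ∈ T, ∀ j ∈ T.erase i, d j s ≠ d i s := by
    intro i hi j hj h0
    have h1 := key i hi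
    rw [prod_eq_zero hj (sub_eq_zero.2 h0), zero_mul] at h1
    exact hSW i hi h1
  have hinj : Set.InjOn (fun i => d i s) T := by
    intro i hi j hj hij
    by_contra hne'
    exact hne i hi j (mem_erase.2 ⟨fun h => hne' h.symm, hj⟩) hij.symm
  have hsum := sum_rk_even hinj
  rw [hcT] at hsum
  have hsign : ∀ i ∈ T, 0 < (-1 : ℝ) ^ rk T (fun i => d i s) i *
      (sg Q i * ww Q (circ s r) s i * V) := by
    intro i hi
    have h1 := key i hi
    have h2 := sign_rk (hne i hi)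
    have h3 : 0 < V ^ 2 := by positivity
    have : (-1 : ℝ) ^ rk T (fun i => d i s) i * (sg Q i * ww Q (circ s r) s i * V) =
        ((-1 : ℝ) ^ rk T (fun i => d i s) i * ∏ j ∈ T.erase i, (d j s - d i s)) * V ^ 2 := by
      linear_combination ((-1 : ℝ) ^ rk T (fun i => d i s) i * V) * h1
    rw [this]
    positivity
  rcases lt_or_gt_of_ne hV0 with hV1 | hV1
  · have h5 : ∀ i ∈ T, xx Q (circ s r) i = -(-1) ^ rk T (fun i => d i s) i := by
      intro i hi
      have h6 := hsign i hi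
      unfold xx
      rw [ctr_circ hr]
      rcases Nat.even_or_odd (rk T (fun i => d i s) i) with h7 | h7
      · rw [h7.neg_one_pow] at h6 ⊢
        rw [one_mul] at h6
        rw [if_neg]
        intro h8
        exact absurd h6 (not_lt.2 (mul_nonpos_of_nonneg_of_nonpos h8.le hV1.le))
      · rw [h7.neg_one_pow] at h6 ⊢
        rw [if_pos]
        · norm_num
        · by_contra h8
          have := mul_nonneg_of_nonpos_of_nonpos (not_lt.1 h8) hV1.le
          linarith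
    rw [sum_congr rfl h5, sum_neg_distrib, neg_sq, hsum]
  · have h5 : ∀ i ∈ T, xx Q (circ s r) i = (-1) ^ rk T (fun i => d i s) i := by
      intro i hi
      have h6 := hsign i hi
      unfold xx
      rw [ctr_circ hr]
      rcases Nat.even_or_odd (rk T (fun i => d i s) i) with h7 | h7
      · rw [h7.neg_one_pow] at h6 ⊢
        rw [if_pos]
        by_contra h8
        have := mul_nonpos_of_nonpos_of_nonneg (not_lt.1 h8) hV1.le
        linarith
      · rw [h7.neg_one_pow] at h6 ⊢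
        rw [if_neg]
        intro h8
        have := mul_pos h8 hV1
        linarith
    rw [sum_congr rfl h5, hsum]

open Classical in
/-- the points which lie on no determined horocycle with an even number of points -/
noncomputable def nn (Q : Finset ℍ) : Finset ℍ :=
  {i ∈ Q | ∀ K ∈ det Q, i ∈ K → Odd (cnt Q K)}

theorem sum_through {Q : Finset ℍ} {i : ℍ} (hi : i ∈ Q) [∀ H : Set ℍ, Decidable (i ∈ H)] :
    ∑ H ∈ det Q with i ∈ H, (cnt Q H - 1) = 2 * (#Q - 1) := by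
  classical
  have h2 : ∑ H ∈ det Q with i ∈ H, ∑ j ∈ ({j ∈ Q | j ∈ H} : Finset ℍ).erase i, 1 =
      ∑ j ∈ Q.erase i, ∑ H ∈ det Q with i ∈ H ∧ j ∈ H, 1 := by
    apply sum_comm'
    intro H j
    simp only [mem_filter, mem_erase]
    tauto
  have h3 : ∑ H ∈ det Q with i ∈ H, (cnt Q H - 1) =
      ∑ H ∈ det Q with i ∈ H, ∑ j ∈ ({j ∈ Q | j ∈ H} : Finset ℍ).erase i, 1 := by
    apply sum_congr rfl
    intro H hH
    rw [mem_filter] at hH
    rw [sum_const, card_erase_of_mem (mem_filter.2 ⟨hi, hH.2⟩), smul_eq_mul, mul_one]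
    rfl
  rw [h3, h2]
  have h4 : ∀ j ∈ Q.erase i, ∑ H ∈ det Q with i ∈ H ∧ j ∈ H, 1 = 2 := by
    intro j hj
    rw [mem_erase] at hj
    rw [sum_const, smul_eq_mul, mul_one]
    convert card_through hi hj.2 (Ne.symm hj.1)
  rw [sum_congr rfl h4, sum_const, card_erase_of_mem hi, smul_eq_mul, mul_comm]

/-- the number of even horocycles through a point is even -/
theorem even_through {Q : Finset ℍ} {i : ℍ} (hi : i ∈ Q) [∀ H : Set ℍ, Decidable (i ∈ H)] :
    Even #{H ∈ det Q | i ∈ H ∧ Even (cnt Q H)} := by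
  classical
  have h1 := sum_through hi
  -- modulo 2
  have h2 : ((∑ H ∈ det Q with i ∈ H, (cnt Q H - 1) : ℕ) : ZMod 2) =
      #{H ∈ det Q | i ∈ H ∧ Even (cnt Q H)} := by
    rw [← filter_filter, card_filter]
    push_cast
    apply sum_congr rfl
    intro H hH
    rw [mem_filter] at hH
    have h3 := two_le_cnt hH.1
    split_ifs with h4
    · rw [ZMod.natCast_eq_one_iff_odd]
      obtain ⟨k, hk⟩ := h4
      exact ⟨k - 1, by omega⟩
    · rw [ZMod.natCast_eq_zero_iff_even]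
      obtain ⟨k, hk⟩ := Nat.not_even_iff_odd.1 h4
      exact ⟨k, by omega⟩
  rw [h1] at h2
  rw [← ZMod.natCast_eq_zero_iff_even, ← h2, ZMod.natCast_eq_zero_iff_even]
  exact even_two_mul _

theorem nn_bound {Q : Finset ℍ} (h3 : ∀ H ∈ det Q, cnt Q H ≤ 3) :
    #Q ≤ #(nn Q) + #{H ∈ det Q | cnt Q H = 2} := by
  classical
  have h1 : ∀ i ∈ Q \ nn Q, 2 ≤ #{H ∈ det Q | i ∈ H ∧ Even (cnt Q H)} := by
    intro i hi
    rw [mem_sdiff] at hi
    have h2 := even_through hi.1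
    have h4 : 0 < #{H ∈ det Q | i ∈ H ∧ Even (cnt Q H)} := by
      rw [card_pos]
      by_contra h5
      rw [not_nonempty_iff_eq_empty] at h5
      apply hi.2
      unfold nn
      rw [mem_filter]
      refine ⟨hi.1, fun K hK hiK => ?_⟩
      rw [← Nat.not_even_iff_odd]
      intro h6
      have h7 : K ∈ ({H ∈ det Q | i ∈ H ∧ Even (cnt Q H)} : Finset (Set ℍ)) :=
        mem_filter.2 ⟨hK, hiK, h6⟩
      rw [h5] at h7
      exact absurd h7 (notMem_empty _)
    obtain ⟨k, hk⟩ := h2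
    omega
  have h2 : ∑ i ∈ Q, #{H ∈ det Q | i ∈ H ∧ Even (cnt Q H)} =
      ∑ H ∈ det Q with cnt Q H = 2, cnt Q H := by
    have h4 := sum_card_bipartiteAbove_eq_sum_card_bipartiteBelow
      (s := Q) (t := {H ∈ det Q | cnt Q H = 2}) (fun (i : ℍ) (H : Set ℍ) => i ∈ H)
    unfold bipartiteAbove bipartiteBelow at h4
    have h5 : ∀ i ∈ Q, #{H ∈ det Q | i ∈ H ∧ Even (cnt Q H)} =
        #{H ∈ {H ∈ det Q | cnt Q H = 2} | i ∈ H} := by
      intro i _
      congr 1
      ext H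
      simp only [mem_filter]
      constructor
      · rintro ⟨a, b, c⟩
        refine ⟨⟨a, ?_⟩, b⟩
        have e1 := two_le_cnt a
        have e2 := h3 H a
        obtain ⟨k, hk⟩ := c
        omega
      · rintro ⟨⟨a, b⟩, c⟩
        exact ⟨a, c, by rw [b]; exact even_two⟩
    rw [sum_congr rfl h5, h4]
    rfl
  have h4 : ∑ H ∈ det Q with cnt Q H = 2, cnt Q H = 2 * #{H ∈ det Q | cnt Q H = 2} := by
    rw [sum_congr rfl (fun H hH => (mem_filter.1 hH).2), sum_const, smul_eq_mul, mul_comm]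
  have h5 : 2 * #(Q \ nn Q) ≤ ∑ i ∈ Q \ nn Q, #{H ∈ det Q | i ∈ H ∧ Even (cnt Q H)} := by
    have := card_nsmul_le_sum _ _ _ h1
    rw [smul_eq_mul] at this
    linarith
  have h6 : ∑ i ∈ Q \ nn Q, #{H ∈ det Q | i ∈ H ∧ Even (cnt Q H)} ≤
      ∑ i ∈ Q, #{H ∈ det Q | i ∈ H ∧ Even (cnt Q H)} :=
    sum_le_sum_of_subset (sdiff_subset)
  have h7 : #(Q \ nn Q) + #(nn Q) = #Q := card_sdiff_add_card_eq_card (filter_subset _ _)
  omega

end Pool.Agent.HoroSix
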